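import Mathlib

/-!
Sequence lemmas for the Blaschke step `F = (1 - μ z) G ↦ (z - μ) G`, `μ = 1/10`,
on two sided square summable sequences.
-/

namespace Pool.Agent.R301.PD

open scoped ComplexConjugate

theorem nsq_sub (a b : ℂ) : ‖a - (1/10 : ℂ) * b‖ ^ 2
    = ‖a‖ ^ 2 + (1/100) * ‖b‖ ^ 2 - (1/5) * (a * conj b).re := by
  rw [← Complex.normSq_eq_norm_sq, ← Complex.normSq_eq_norm_sq, ← Complex.normSq_eq_norm_sq]
  simp only [Complex.normSq_apply, Complex.sub_re, Complex.sub_im, Complex.mul_re, Complex.mul_im,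
    Complex.conj_re, Complex.conj_im]
  have h1 : ((1/10 : ℂ)).re = 1/10 := by norm_num
  have h2 : ((1/10 : ℂ)).im = 0 := by norm_num
  rw [h1, h2]; ring

theorem summable_shift {w : ℤ → ℝ} (hw : Summable w) : Summable fun m : ℤ => w (m - 1) :=
  (Equiv.subRight (1 : ℤ)).summable_iff.2 hw

theorem tsum_shift (w : ℤ → ℝ) : ∑' m : ℤ, w (m - 1) = ∑' m : ℤ, w m :=
  (Equiv.subRight (1 : ℤ)).tsum_eq w

theorem summable_x {g : ℤ → ℂ} (hg : Summable fun m => ‖g m‖ ^ 2) :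
    Summable fun m : ℤ => ‖g m - (1/10 : ℂ) * g (m - 1)‖ ^ 2 := by
  refine Summable.of_nonneg_of_le (fun m => by positivity) (fun m => ?_)
    ((hg.mul_left 2).add ((summable_shift hg).mul_left 2))
  have h := norm_sub_le (g m) ((1/10 : ℂ) * g (m - 1))
  have h2 : ‖(1/10 : ℂ) * g (m - 1)‖ ≤ ‖g (m - 1)‖ := by
    rw [norm_mul]
    have : ‖(1/10 : ℂ)‖ = 1/10 := by norm_num
    rw [this]; nlinarith [norm_nonneg (g (m - 1))]
  have h3 : ‖g m - (1/10 : ℂ) * g (m - 1)‖ ≤ ‖g m‖ + ‖g (m - 1)‖ := by linarith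
  nlinarith [norm_nonneg (g m - (1/10 : ℂ) * g (m - 1)), sq_nonneg (‖g m‖ - ‖g (m-1)‖)]

theorem seq_iso {g : ℤ → ℂ} (hg : Summable fun m => ‖g m‖ ^ 2) :
    ∑' m : ℤ, ‖g (m - 1) - (1/10 : ℂ) * g m‖ ^ 2
      = ∑' m : ℤ, ‖g m - (1/10 : ℂ) * g (m - 1)‖ ^ 2 := by
  have key : ∀ m : ℤ, ‖g (m - 1) - (1/10 : ℂ) * g m‖ ^ 2
      = ‖g m - (1/10 : ℂ) * g (m - 1)‖ ^ 2
        + ((99/100) * ‖g (m - 1)‖ ^ 2 - (99/100) * ‖g m‖ ^ 2) := by
    intro m
    rw [nsq_sub, nsq_sub]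
    have : (g (m - 1) * conj (g m)).re = (g m * conj (g (m - 1))).re := by
      simp only [Complex.mul_re, Complex.conj_re, Complex.conj_im]; ring
    rw [this]; ring
  rw [tsum_congr key, Summable.tsum_add (summable_x hg)
    (((summable_shift hg).mul_left _).sub (hg.mul_left _)),
    Summable.tsum_sub ((summable_shift hg).mul_left _) (hg.mul_left _),
    tsum_mul_left, tsum_mul_left, tsum_shift (fun m => ‖g m‖ ^ 2)]
  ring

/-- The weight `r^{2|m|}`, `r = 1/10`. -/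
noncomputable def wt (m : ℤ) : ℝ := (1/100 : ℝ) ^ m.natAbs

theorem wt_pos (m : ℤ) : 0 < wt m := by unfold wt; positivity
theorem wt_le_one (m : ℤ) : wt m ≤ 1 := by
  unfold wt; exact pow_le_one₀ (by norm_num) (by norm_num)

theorem summable_wt {u : ℤ → ℝ} (hu : Summable u) (h0 : ∀ m, 0 ≤ u m) :
    Summable fun m => wt m * u m := by
  refine Summable.of_nonneg_of_le (fun m => mul_nonneg (wt_pos m).le (h0 m)) (fun m => ?_) hu
  nlinarith [wt_le_one m, h0 m]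

theorem wt_shift {g : ℤ → ℂ} (h0 : ∀ m < 0, g m = 0) (m : ℤ) :
    wt m * ‖g (m - 1)‖ ^ 2 = (1/100) * (wt (m - 1) * ‖g (m - 1)‖ ^ 2) := by
  rcases lt_or_ge (m - 1) 0 with h | h
  · rw [h0 _ h]; simp
  · have : m.natAbs = (m - 1).natAbs + 1 := by omega
    unfold wt; rw [this, pow_succ]; ring

theorem seq_contr {g : ℤ → ℂ} (hg : Summable fun m => ‖g m‖ ^ 2) (h0 : ∀ m < 0, g m = 0) :
    ∑' m : ℤ, wt m * ‖g (m - 1) - (1/10 : ℂ) * g m‖ ^ 2
      ≤ (41/1000) * ∑' m : ℤ, wt m * ‖g m - (1/10 : ℂ) * g (m - 1)‖ ^ 2 := by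
  have hK : Summable fun m => wt m * ‖g m‖ ^ 2 := summable_wt hg (fun m => by positivity)
  have hK' : Summable fun m : ℤ => wt (m - 1) * ‖g (m - 1)‖ ^ 2 :=
    summable_shift (w := fun m => wt m * ‖g m‖ ^ 2) hK
  have hx := summable_wt (summable_x hg) (fun m => by positivity)
  have e : ∑' m : ℤ, wt (m - 1) * ‖g (m - 1)‖ ^ 2 = ∑' m, wt m * ‖g m‖ ^ 2 :=
    tsum_shift (fun m => wt m * ‖g m‖ ^ 2)
  have h10 : ‖(1/10 : ℂ)‖ = 1/10 := by norm_num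
  -- upper bound
  have hub : ∑' m : ℤ, wt m * ‖g (m - 1) - (1/10 : ℂ) * g m‖ ^ 2
      ≤ (4/100) * ∑' m, wt m * ‖g m‖ ^ 2 := by
    have hp : ∀ m : ℤ, wt m * ‖g (m - 1) - (1/10 : ℂ) * g m‖ ^ 2
        ≤ (2/100) * (wt (m - 1) * ‖g (m - 1)‖ ^ 2) + (2/100) * (wt m * ‖g m‖ ^ 2) := by
      intro m
      have h1 := norm_sub_le (g (m - 1)) ((1/10 : ℂ) * g m)
      rw [norm_mul, h10] at h1
      have h2 : ‖g (m - 1) - (1/10 : ℂ) * g m‖ ^ 2
          ≤ 2 * ‖g (m - 1)‖ ^ 2 + (2/100) * ‖g m‖ ^ 2 := by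
        nlinarith [norm_nonneg (g (m - 1) - (1/10 : ℂ) * g m), norm_nonneg (g m),
          norm_nonneg (g (m-1)), sq_nonneg (‖g (m - 1)‖ - (1/10) * ‖g m‖)]
      have h3 := mul_le_mul_of_nonneg_left h2 (wt_pos m).le
      have h4 := wt_shift h0 m
      nlinarith
    calc ∑' m : ℤ, wt m * ‖g (m - 1) - (1/10 : ℂ) * g m‖ ^ 2
        ≤ ∑' m : ℤ, ((2/100) * (wt (m - 1) * ‖g (m - 1)‖ ^ 2) + (2/100) * (wt m * ‖g m‖ ^ 2)) := by
          refine Summable.tsum_le_tsum hp ?_ ((hK'.mul_left _).add (hK.mul_left _))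
          exact Summable.of_nonneg_of_le (fun m => mul_nonneg (wt_pos m).le (by positivity)) hp
            ((hK'.mul_left _).add (hK.mul_left _))
      _ = (4/100) * ∑' m, wt m * ‖g m‖ ^ 2 := by
          rw [Summable.tsum_add (hK'.mul_left _) (hK.mul_left _), tsum_mul_left, tsum_mul_left, e]
          ring
  have hlb : (9801/10000) * ∑' m, wt m * ‖g m‖ ^ 2
      ≤ ∑' m : ℤ, wt m * ‖g m - (1/10 : ℂ) * g (m - 1)‖ ^ 2 := by
    have hp : ∀ m : ℤ, (99/100) * (wt m * ‖g m‖ ^ 2) - (99/10000) * (wt (m-1) * ‖g (m - 1)‖ ^ 2)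
        ≤ wt m * ‖g m - (1/10 : ℂ) * g (m - 1)‖ ^ 2 := by
      intro m
      have h1 : ‖g m‖ - (1/10) * ‖g (m - 1)‖ ≤ ‖g m - (1/10 : ℂ) * g (m - 1)‖ := by
        have := norm_sub_norm_le (g m) ((1/10 : ℂ) * g (m - 1))
        rwa [norm_mul, h10] at this
      have h2 : (99/100) * ‖g m‖ ^ 2 - (99/100) * ‖g (m - 1)‖ ^ 2
          ≤ ‖g m - (1/10 : ℂ) * g (m - 1)‖ ^ 2 := by
        rw [nsq_sub]
        have h3 : (g m * conj (g (m - 1))).re ≤ ‖g m‖ * ‖g (m - 1)‖ := by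
          calc (g m * conj (g (m - 1))).re ≤ ‖g m * conj (g (m - 1))‖ := Complex.re_le_norm _
            _ = ‖g m‖ * ‖g (m - 1)‖ := by rw [norm_mul, RCLike.norm_conj]
        nlinarith [sq_nonneg ((1/10) * ‖g m‖ - ‖g (m - 1)‖)]
      have h3 := mul_le_mul_of_nonneg_left h2 (wt_pos m).le
      have h4 := wt_shift h0 m
      nlinarith
    calc (9801/10000) * ∑' m, wt m * ‖g m‖ ^ 2
        = ∑' m : ℤ, ((99/100) * (wt m * ‖g m‖ ^ 2)
            - (99/10000) * (wt (m-1) * ‖g (m - 1)‖ ^ 2)) := by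
          rw [Summable.tsum_sub (hK.mul_left _) (hK'.mul_left _), tsum_mul_left, tsum_mul_left, e]
          ring
      _ ≤ _ := Summable.tsum_le_tsum hp ((hK.mul_left _).sub (hK'.mul_left _)) hx
  have h0' : 0 ≤ ∑' m, wt m * ‖g m‖ ^ 2 :=
    tsum_nonneg fun m => mul_nonneg (wt_pos m).le (by positivity)
  nlinarith

theorem seq_supp {g : ℤ → ℂ} (hg : Summable fun m => ‖g m‖ ^ 2) (m0 : ℤ)
    (hx : ∀ m < m0, g m - (1/10 : ℂ) * g (m - 1) = 0) : ∀ m < m0, g m = 0 := by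
  obtain ⟨B, hB⟩ : ∃ B : ℝ, ∀ m, ‖g m‖ ≤ B := by
    refine ⟨Real.sqrt (∑' m, ‖g m‖ ^ 2), fun m => ?_⟩
    apply Real.le_sqrt_of_sq_le
    exact hg.le_tsum m (fun j _ => by positivity)
  intro m hm
  have h1 : ∀ n : ℕ, ‖g m‖ ≤ (1/10 : ℝ) ^ n * B := by
    have : ∀ n : ℕ, ∀ m < m0, ‖g m‖ ≤ (1/10 : ℝ) ^ n * B := by
      intro n
      induction n with
      | zero => intro m _; simpa using hB m
      | succ n ih =>
        intro m hm
        have h2 : g m = (1/10 : ℂ) * g (m - 1) := sub_eq_zero.1 (hx m hm)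
        rw [h2, norm_mul]
        have : ‖(1/10 : ℂ)‖ = 1/10 := by norm_num
        rw [this, pow_succ]
        have := ih (m - 1) (by omega)
        nlinarith
    intro n; exact this n m hm
  have h2 : Filter.Tendsto (fun n : ℕ => (1/10 : ℝ) ^ n * B) Filter.atTop (nhds (0 * B)) :=
    (tendsto_pow_atTop_nhds_zero_of_lt_one (by norm_num) (by norm_num)).mul_const B
  rw [zero_mul] at h2
  have h3 : ‖g m‖ ≤ 0 := ge_of_tendsto' h2 h1
  simpa using h3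

/-- `Y` is obtained from `X` by one Blaschke step. -/
def Step (X Y : ℤ → ℂ) : Prop :=
  ∃ g : ℤ → ℂ, (Summable fun m => ‖g m‖ ^ 2) ∧ (∀ m, X m = g m - (1/10 : ℂ) * g (m - 1)) ∧
    ∀ m, Y m = g (m - 1) - (1/10 : ℂ) * g m

theorem chain_supp {X : ℕ → ℤ → ℂ} (hX : ∀ j, Step (X j) (X (j+1))) {m0 : ℤ}
    (h0 : ∀ m < m0, X 0 m = 0) (s : ℕ) : ∀ m < m0, X s m = 0 := by
  induction s with
  | zero => exact h0
  | succ s ih =>
    obtain ⟨g, hg, h1, h2⟩ := hX s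
    have h3 := seq_supp hg m0 (fun m hm => by rw [← h1]; exact ih m hm)
    intro m hm
    rw [h2, h3 m hm, h3 (m - 1) (by omega)]; simp

theorem chain_iso {X : ℕ → ℤ → ℂ} (hX : ∀ j, Step (X j) (X (j+1))) (s : ℕ) :
    ∑' m, ‖X s m‖ ^ 2 = ∑' m, ‖X 0 m‖ ^ 2 := by
  induction s with
  | zero => rfl
  | succ s ih =>
    rw [← ih]
    obtain ⟨g, hg, h1, h2⟩ := hX s
    simp_rw [h1, h2]
    exact seq_iso hg

theorem chain_contr {X : ℕ → ℤ → ℂ} (hX : ∀ j, Step (X j) (X (j+1)))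
    (h0 : ∀ m < 0, X 0 m = 0) (s : ℕ) :
    ∑' m, wt m * ‖X s m‖ ^ 2 ≤ (41/1000) ^ s * ∑' m, wt m * ‖X 0 m‖ ^ 2 := by
  induction s with
  | zero => simp
  | succ s ih =>
    obtain ⟨g, hg, h1, h2⟩ := hX s
    have h3 := seq_supp hg 0 (fun m hm => by rw [← h1]; exact chain_supp hX h0 s m hm)
    have h4 := seq_contr hg h3
    simp_rw [← h1, ← h2] at h4
    calc _ ≤ _ := h4
      _ ≤ (41/1000) * ((41/1000) ^ s * ∑' m, wt m * ‖X 0 m‖ ^ 2) := by linarith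
      _ = _ := by ring

theorem step_summable {X Y : ℤ → ℂ} (h : Step X Y) : Summable fun m => ‖X m‖ ^ 2 := by
  obtain ⟨g, hg, h1, h2⟩ := h
  simp_rw [h1]
  exact summable_x hg

/-- The weight inequality. -/
theorem weight_ineq (s : ℕ) (hs : 1 ≤ s) (m : ℤ) :
    1 / ((m.natAbs : ℝ) + s) ≤ (1 / s) * (2/3 + (1/3) * (10 ^ s * wt m)) := by
  have hs' : (1 : ℝ) ≤ s := by exact_mod_cast hs
  have hm : (0 : ℝ) ≤ m.natAbs := by positivity
  have hw : 0 < wt m := wt_pos m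
  rw [div_le_iff₀ (by positivity)]
  rcases le_or_gt s (2 * m.natAbs) with h | h
  · have h' : (s : ℝ) ≤ 2 * m.natAbs := by exact_mod_cast h
    have h1 : (1 / (s : ℝ)) * (2/3) * ((m.natAbs : ℝ) + s) ≥ 1 := by
      rw [ge_iff_le, div_mul_eq_mul_div, div_mul_eq_mul_div, le_div_iff₀ (by positivity)]
      nlinarith
    have h2 : 0 ≤ (1 / (s : ℝ)) * ((1/3) * (10 ^ s * wt m)) * ((m.natAbs : ℝ) + s) := by positivity
    nlinarith
  · have h1 : 1 ≤ 10 ^ s * wt m := by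
      unfold wt
      have : (10 : ℝ) ^ s = 10 ^ (s - 2 * m.natAbs) * 10 ^ (2 * m.natAbs) := by
        rw [← pow_add]; congr 1; omega
      rw [this, pow_mul, mul_assoc, ← mul_pow]
      norm_num
      exact one_le_pow₀ (by norm_num)
    have h2 : (1 / (s : ℝ)) * 1 * ((m.natAbs : ℝ) + s)
        ≤ (1 / (s : ℝ)) * (2/3 + (1/3) * (10 ^ s * wt m)) * ((m.natAbs : ℝ) + s) := by
      gcongr; linarith
    have h3 : (1 / (s : ℝ)) * 1 * ((m.natAbs : ℝ) + s) ≥ 1 := by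
      rw [mul_one, ge_iff_le, div_mul_eq_mul_div, le_div_iff₀ (by positivity)]
      nlinarith
    linarith

theorem chain_main {X : ℕ → ℤ → ℂ} (hX : ∀ j, Step (X j) (X (j+1)))
    (h0 : ∀ m < 0, X 0 m = 0) (s : ℕ) (hs : 1 ≤ s) :
    ∑' m : ℤ, ‖X s m‖ ^ 2 / ((m.natAbs : ℝ) + s) ≤ (81/100) * ((∑' m, ‖X 0 m‖ ^ 2) / s) := by
  have hs' : (1 : ℝ) ≤ s := by exact_mod_cast hs
  have hsum := step_summable (hX s)
  have hsum0 := step_summable (hX 0)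
  have hw := summable_wt hsum (fun m => by positivity)
  have hp : ∀ m : ℤ, ‖X s m‖ ^ 2 / ((m.natAbs : ℝ) + s)
      ≤ (2/3 * (1 / (s:ℝ))) * ‖X s m‖ ^ 2
        + (1/3 * (1 / (s:ℝ)) * 10 ^ s) * (wt m * ‖X s m‖ ^ 2) := by
    intro m
    have := mul_le_mul_of_nonneg_left (weight_ineq s hs m) (sq_nonneg ‖X s m‖)
    rw [mul_one_div] at this
    refine this.trans (le_of_eq ?_)
    ring
  have hE : ∑' m, wt m * ‖X 0 m‖ ^ 2 ≤ ∑' m, ‖X 0 m‖ ^ 2 := by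
    refine Summable.tsum_le_tsum (fun m => ?_) (summable_wt hsum0 (fun m => by positivity)) hsum0
    nlinarith [wt_le_one m, sq_nonneg ‖X 0 m‖]
  have hE0 : 0 ≤ ∑' m, ‖X 0 m‖ ^ 2 := tsum_nonneg fun m => by positivity
  have hc := chain_contr hX h0 s
  calc ∑' m : ℤ, ‖X s m‖ ^ 2 / ((m.natAbs : ℝ) + s)
      ≤ ∑' m : ℤ, ((2/3 * (1 / (s:ℝ))) * ‖X s m‖ ^ 2
        + (1/3 * (1 / (s:ℝ)) * 10 ^ s) * (wt m * ‖X s m‖ ^ 2)) := by
        refine Summable.tsum_le_tsum hp ?_ ((hsum.mul_left _).add (hw.mul_left _))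
        exact Summable.of_nonneg_of_le (fun m => by positivity) hp
          ((hsum.mul_left _).add (hw.mul_left _))
    _ = (2/3 * (1 / (s:ℝ))) * ∑' m, ‖X s m‖ ^ 2
        + (1/3 * (1 / (s:ℝ)) * 10 ^ s) * ∑' m, (wt m * ‖X s m‖ ^ 2) := by
        rw [Summable.tsum_add (hsum.mul_left _) (hw.mul_left _), tsum_mul_left, tsum_mul_left]
    _ ≤ (2/3 * (1 / (s:ℝ))) * ∑' m, ‖X 0 m‖ ^ 2
        + (1/3 * (1 / (s:ℝ)) * 10 ^ s) * ((41/1000) ^ s * ∑' m, ‖X 0 m‖ ^ 2) := by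
        rw [chain_iso hX s]
        gcongr
        exact hc.trans (by gcongr)
    _ = (2/3 + 1/3 * (41/100) ^ s) * ((∑' m, ‖X 0 m‖ ^ 2) / s) := by
        have : (10 : ℝ) ^ s * (41/1000) ^ s = (41/100) ^ s := by
          rw [← mul_pow]; norm_num
        rw [← this]; ring
    _ ≤ (81/100) * ((∑' m, ‖X 0 m‖ ^ 2) / s) := by
        have h1 : (41/100 : ℝ) ^ s ≤ (41/100) ^ 1 :=
          pow_le_pow_of_le_one (by norm_num) (by norm_num) hs
        have h2 : 0 ≤ (∑' m, ‖X 0 m‖ ^ 2) / (s:ℝ) := by positivity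
        nlinarith

end Pool.Agent.R301.PD
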