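import Pool.Agent.R301.PD.Maps
import Pool.Agent.R301.PD.Seq

/-!
Fourier coefficients of functions on the torus under the shears, and the row theorem.
-/

open MeasureTheory UnitAddTorus
open scoped ContDiff ComplexConjugate

namespace Pool.Agent.R301.PD

attribute [local instance] instMeasureSpaceUnitAddCircle

local instance instHaar' : Measure.IsAddHaarMeasure (volume : Measure UnitAddCircle) :=
  inferInstanceAs (Measure.IsAddHaarMeasure AddCircle.haarAddCircle)
local instance instProb' : IsProbabilityMeasure (volume : Measure UnitAddCircle) :=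
  inferInstanceAs (IsProbabilityMeasure AddCircle.haarAddCircle)
local instance instNegT2 : Measure.IsNegInvariant (volume : Measure T2) :=
  Pi.isNegInvariant_volume (ι := Fin 2) (α := UnitAddCircle)

/-- Fourier coefficients, with two integer arguments. -/
noncomputable def fc (f : T2 → ℂ) (m p : ℤ) : ℂ :=
  ∫ x : T2, zz (x 0) ^ (-m) * zz (x 1) ^ (-p) * f x

theorem mFourier_eq (k : Fin 2 → ℤ) (x : T2) : mFourier k x = zz (x 0) ^ (k 0) * zz (x 1) ^ (k 1) := by
  simp only [mFourier, ContinuousMap.coe_mk, Fin.prod_univ_two, fourier_eq]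

theorem mFourierCoeff_eq (f : T2 → ℂ) (k : Fin 2 → ℤ) : mFourierCoeff f k = fc f (k 0) (k 1) := by
  unfold mFourierCoeff fc
  refine integral_congr_ae (Filter.Eventually.of_forall fun x => ?_)
  simp only [mFourier_eq, Pi.neg_apply, smul_eq_mul]

theorem fc_congr {f g : T2 → ℂ} (h : f =ᵐ[volume] g) (m p : ℤ) : fc f m p = fc g m p := by
  unfold fc
  refine integral_congr_ae ?_
  filter_upwards [h] with x hx
  rw [hx]

/-- `b(x₀)` -/
noncomputable def bb (x : T2) : ℂ := zz (beta (x 0))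

theorem bb_ne (x : T2) : bb x ≠ 0 := zz_ne _
theorem bb_norm (x : T2) : ‖bb x‖ = 1 := zz_norm _
theorem bb_neg (x : T2) : bb (-x) = (bb x)⁻¹ := by
  unfold bb
  rw [Pi.neg_apply, beta_neg, zz_neg]

theorem continuous_zz : Continuous zz := by
  unfold zz
  exact continuous_subtype_val.comp (AddCircle.continuous_toCircle)

theorem continuous_bb : Continuous bb :=
  continuous_zz.comp (continuous_beta.comp (continuous_apply 0))

theorem fc_shA (f : T2 → ℂ) (m p : ℤ) : fc (fun x => f (shA x)) m p = fc f m (p - m) := by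
  unfold fc
  rw [← mp_shA.integral_comp shA.measurableEmbedding
    (fun x => zz (x 0) ^ (-m) * zz (x 1) ^ (-(p - m)) * f x)]
  refine integral_congr_ae (Filter.Eventually.of_forall fun x => ?_)
  have h0 : shA x 0 = x 0 + x 1 := rfl
  have h1 : shA x 1 = x 1 := rfl
  simp only [h0, h1, zz_add, mul_zpow]
  have : zz (x 1) ^ (-m) * zz (x 1) ^ (-(p - m)) = zz (x 1) ^ (-p) := by
    rw [← zpow_add₀ (zz_ne _)]; congr 1; ring
  rw [← this]; ring

theorem fc_shA_symm (f : T2 → ℂ) (m p : ℤ) :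
    fc (fun x => f (shA.symm x)) m p = fc f m (p + m) := by
  have h := fc_shA (fun x => f (shA.symm x)) m (p + m)
  simp only [Homeomorph.symm_apply_apply, add_sub_cancel_right] at h
  exact h.symm

theorem fc_sig (f : T2 → ℂ) (m p : ℤ) :
    fc (fun x => f (sig x)) m p = fc (fun x => bb x ^ p * f x) m p := by
  unfold fc
  rw [← mp_sig.integral_comp sig.measurableEmbedding
    (fun x => zz (x 0) ^ (-m) * zz (x 1) ^ (-p) * (bb x ^ p * f x))]
  refine integral_congr_ae (Filter.Eventually.of_forall fun x => ?_)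
  have h0 : sig x 0 = x 0 := rfl
  have h1 : sig x 1 = x 1 + beta (x 0) := rfl
  have h2 : bb (sig x) = zz (beta (x 0)) := rfl
  simp only [h0, h1, h2, zz_add, mul_zpow]
  have : zz (beta (x 0)) ^ (-p) * zz (beta (x 0)) ^ p = 1 := by
    rw [← zpow_add₀ (zz_ne _), neg_add_cancel, zpow_zero]
  linear_combination (- zz (x 0) ^ (-m) * zz (x 1) ^ (-p) * f (sig x)) * this

theorem fc_sig_symm (f : T2 → ℂ) (m p : ℤ) :
    fc (fun x => f (sig.symm x)) m p = fc (fun x => bb x ^ (-p) * f x) m p := by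
  unfold fc
  rw [← mp_sig.integral_comp sig.measurableEmbedding
    (fun x => zz (x 0) ^ (-m) * zz (x 1) ^ (-p) * f (sig.symm x))]
  refine integral_congr_ae (Filter.Eventually.of_forall fun x => ?_)
  have h0 : sig x 0 = x 0 := rfl
  have h1 : sig x 1 = x 1 + beta (x 0) := rfl
  have h2 : bb x = zz (beta (x 0)) := rfl
  simp only [h0, h1, h2, zz_add, mul_zpow, Homeomorph.symm_apply_apply]
  ring

theorem fc_neg (f : T2 → ℂ) (m p : ℤ) : fc (fun x => f (-x)) m p = fc f (-m) (-p) := by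
  unfold fc
  rw [← integral_neg_eq_self]
  refine integral_congr_ae (Filter.Eventually.of_forall fun x => ?_)
  simp only [Pi.neg_apply, zz_neg, neg_neg, inv_zpow', ]

theorem summable_mFourierCoeff {F : T2 → ℂ} (hF : MemLp F 2 (volume : Measure T2)) :
    Summable fun k : Fin 2 → ℤ => ‖fc F (k 0) (k 1)‖ ^ 2 := by
  have h := (hasSum_sq_mFourierCoeff (d := Fin 2) (hF.toLp F)).summable
  refine h.congr fun k => ?_
  rw [mFourierCoeff_eq]
  rw [fc_congr (MemLp.coeFn_toLp hF)]

theorem summable_fc {F : T2 → ℂ} (hF : MemLp F 2 (volume : Measure T2)) :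
    Summable fun x : ℤ × ℤ => ‖fc F x.2 x.1‖ ^ 2 := by
  have h := summable_mFourierCoeff hF
  let e : ℤ × ℤ ≃ (Fin 2 → ℤ) := (Equiv.prodComm ℤ ℤ).trans (finTwoArrowEquiv ℤ).symm
  exact (e.summable_iff.2 h).congr fun x => rfl

theorem summable_row {F : T2 → ℂ} (hF : MemLp F 2 (volume : Measure T2)) (q : ℤ) :
    Summable fun m : ℤ => ‖fc F m q‖ ^ 2 :=
  (summable_fc hF).prod_factor q

theorem den_norm (x : UnitAddCircle) : 9/10 ≤ ‖(1 : ℂ) - (1/10) * zz x‖ := by
  have h := norm_sub_norm_le (1 : ℂ) ((1/10) * zz x)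
  rw [norm_mul, zz_norm, norm_one] at h
  have : ‖(1/10 : ℂ)‖ = 1/10 := by norm_num
  rw [this] at h
  linarith

theorem step_bb {F : T2 → ℂ} (hF : MemLp F 2 (volume : Measure T2)) (q : ℤ) :
    Step (fun m => fc F m q) (fun m => fc (fun x => bb x * F x) m q) := by
  have hne : ∀ x : T2, (1 : ℂ) - (1/10) * zz (x 0) ≠ 0 := fun x h => by
    have := den_norm (x 0); rw [h, norm_zero] at this; linarith
  let G : T2 → ℂ := fun x => ((1 : ℂ) - (1/10) * zz (x 0))⁻¹ * F x
  have hc0 : Continuous fun x : T2 => zz (x 0) := continuous_zz.comp (continuous_apply 0)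
  have hc1 : Continuous fun x : T2 => zz (x 1) := continuous_zz.comp (continuous_apply 1)
  have hc : Continuous fun x : T2 => ((1 : ℂ) - (1/10) * zz (x 0))⁻¹ :=
    (continuous_const.sub (continuous_const.mul hc0)).inv₀ hne
  have hG : MemLp G 2 (volume : Measure T2) := by
    refine MemLp.of_le_mul (c := 2) hF (hc.aestronglyMeasurable.mul hF.aestronglyMeasurable) ?_
    refine Filter.Eventually.of_forall fun x => ?_
    simp only [G, norm_mul, norm_inv]
    have h9 := den_norm (x 0)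
    have : ‖(1 : ℂ) - (1/10) * zz (x 0)‖⁻¹ ≤ 2 := by
      rw [inv_le_comm₀ (by linarith) (by norm_num)]; linarith
    gcongr
  have hGi : ∀ a b : ℤ, Integrable (fun x : T2 => zz (x 0) ^ a * zz (x 1) ^ b * G x) := by
    intro a b
    have hGi : Integrable G (volume : Measure T2) := hG.integrable (by norm_num)
    refine hGi.bdd_mul (c := 1) ?_ ?_
    · exact ((hc0.zpow₀ a (fun x => Or.inl (zz_ne _))).mul
        (hc1.zpow₀ b (fun x => Or.inl (zz_ne _)))).aestronglyMeasurable
    · refine Filter.Eventually.of_forall fun x => ?_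
      simp [norm_zpow, zz_norm]
  refine ⟨fun m => fc G m q, summable_row hG q, ?_, ?_⟩
  · intro m
    change fc F m q = fc G m q - (1/10) * fc G (m - 1) q
    unfold fc
    rw [← integral_const_mul, ← integral_sub (hGi _ _) ((hGi _ _).const_mul _)]
    refine integral_congr_ae (Filter.Eventually.of_forall fun x => ?_)
    have e1 : zz (x 0) ^ (-(m - 1)) = zz (x 0) ^ (-m) * zz (x 0) := by
      rw [show -(m - 1) = -m + 1 by ring, zpow_add₀ (zz_ne _), zpow_one]
    have e2 : F x = (1 - (1/10) * zz (x 0)) * G x := by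
      simp only [G]; rw [← mul_assoc, mul_inv_cancel₀ (hne x), one_mul]
    simp only []
    rw [e1, e2]; ring
  · intro m
    change fc (fun x => bb x * F x) m q = fc G (m - 1) q - (1/10) * fc G m q
    unfold fc
    rw [← integral_const_mul, ← integral_sub (hGi _ _) ((hGi _ _).const_mul _)]
    refine integral_congr_ae (Filter.Eventually.of_forall fun x => ?_)
    have e1 : zz (x 0) ^ (-(m - 1)) = zz (x 0) ^ (-m) * zz (x 0) := by
      rw [show -(m - 1) = -m + 1 by ring, zpow_add₀ (zz_ne _), zpow_one]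
    have e2 : bb x * F x = (zz (x 0) - 1/10) * G x := by
      have hF' : F x = (1 - (1/10) * zz (x 0)) * G x := by
        simp only [G]; rw [← mul_assoc, mul_inv_cancel₀ (hne x), one_mul]
      rw [hF', ← mul_assoc, bb, bb_eq]
    simp only []
    rw [e1, e2]; ring

theorem memLp_bb_zpow {F : T2 → ℂ} (hF : MemLp F 2 (volume : Measure T2)) (j : ℤ) :
    MemLp (fun x => bb x ^ j * F x) 2 (volume : Measure T2) := by
  refine MemLp.of_le hF ((continuous_bb.zpow₀ j
    (fun x => Or.inl (bb_ne x))).aestronglyMeasurable.mul hF.aestronglyMeasurable) ?_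
  refine Filter.Eventually.of_forall fun x => ?_
  simp [norm_zpow, bb_norm]

theorem memLp_bb_pow {F : T2 → ℂ} (hF : MemLp F 2 (volume : Measure T2)) (j : ℕ) :
    MemLp (fun x => bb x ^ j * F x) 2 (volume : Measure T2) := by
  simpa using memLp_bb_zpow hF (j : ℤ)

theorem chain_bb {F : T2 → ℂ} (hF : MemLp F 2 (volume : Measure T2)) (q : ℤ) (j : ℕ) :
    Step (fun m => fc (fun x => bb x ^ j * F x) m q)
      (fun m => fc (fun x => bb x ^ (j + 1) * F x) m q) := by
  have h := step_bb (memLp_bb_pow hF j) q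
  have e : (fun x => bb x * (bb x ^ j * F x)) = fun x => bb x ^ (j + 1) * F x := by
    funext x; ring
  rw [e] at h
  exact h

/-- Row theorem, positive direction. -/
theorem row_pos {F : T2 → ℂ} (hF : MemLp F 2 (volume : Measure T2)) (q : ℤ) (s : ℕ) (hs : 1 ≤ s)
    {m0 : ℤ} (hm0 : 0 ≤ m0) (h0 : ∀ m < m0, fc F m q = 0) :
    (∀ m < m0, fc (fun x => bb x ^ (s : ℤ) * F x) m q = 0) ∧
    ∑' m : ℤ, ‖fc (fun x => bb x ^ (s : ℤ) * F x) m q‖ ^ 2 / ((m.natAbs : ℝ) + s)
      ≤ (81/100) * ((∑' m : ℤ, ‖fc F m q‖ ^ 2) / s) := by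
  have hX : ∀ j : ℕ, Step ((fun j m => fc (fun x => bb x ^ j * F x) m q) j)
      ((fun (j : ℕ) m => fc (fun x => bb x ^ j * F x) m q) (j + 1)) := fun j => chain_bb hF q j
  have hz : ∀ m, fc (fun x => bb x ^ 0 * F x) m q = fc F m q := by intro m; simp
  have h1 := chain_supp (X := fun (j : ℕ) m => fc (fun x => bb x ^ j * F x) m q) hX
    (m0 := m0) (by intro m hm; simpa [hz] using h0 m hm) s
  have h2 := chain_main (X := fun (j : ℕ) m => fc (fun x => bb x ^ j * F x) m q) hX
    (by intro m hm; simpa [hz] using h0 m (by omega)) s hs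
  simp only [hz] at h2
  simp only [zpow_natCast]
  exact ⟨h1, h2⟩

/-- Row theorem, negative direction. -/
theorem row_neg {F : T2 → ℂ} (hF : MemLp F 2 (volume : Measure T2)) (q : ℤ) (s : ℕ) (hs : 1 ≤ s)
    {m0 : ℤ} (hm0 : 0 ≤ m0) (h0 : ∀ m > -m0, fc F m q = 0) :
    (∀ m > -m0, fc (fun x => bb x ^ (-(s : ℤ)) * F x) m q = 0) ∧
    ∑' m : ℤ, ‖fc (fun x => bb x ^ (-(s : ℤ)) * F x) m q‖ ^ 2 / ((m.natAbs : ℝ) + s)
      ≤ (81/100) * ((∑' m : ℤ, ‖fc F m q‖ ^ 2) / s) := by
  have hmp : MeasurePreserving (fun x : T2 => -x) volume volume := Measure.measurePreserving_neg _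
  have hF' : MemLp (fun x => F (-x)) 2 (volume : Measure T2) := hF.comp_measurePreserving hmp
  have e0 : ∀ m, fc (fun x => F (-x)) m (-q) = fc F (-m) q := by
    intro m; rw [fc_neg, neg_neg]
  have e1 : ∀ m, fc (fun x => bb x ^ (s : ℤ) * F (-x)) m (-q)
      = fc (fun x => bb x ^ (-(s : ℤ)) * F x) (-m) q := by
    intro m
    have h := fc_neg (fun x => bb x ^ (-(s : ℤ)) * F x) m (-q)
    rw [neg_neg] at h
    rw [← h]
    congr 1
    funext x
    rw [bb_neg, inv_zpow', neg_neg]
  obtain ⟨h1, h2⟩ := row_pos hF' (-q) s hs hm0 (fun m hm => by rw [e0]; exact h0 _ (by omega))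
  refine ⟨fun m hm => ?_, ?_⟩
  · have := h1 (-m) (by omega)
    rwa [e1, neg_neg] at this
  · simp_rw [e0, e1] at h2
    have r1 := (Equiv.neg ℤ).tsum_eq
      (fun m : ℤ => ‖fc (fun x => bb x ^ (-(s : ℤ)) * F x) m q‖ ^ 2 / ((m.natAbs : ℝ) + s))
    have r2 := (Equiv.neg ℤ).tsum_eq (fun m : ℤ => ‖fc F m q‖ ^ 2)
    simp only [Equiv.neg_apply, Int.natAbs_neg] at r1 r2
    rw [← r1, ← r2]
    exact h2

end Pool.Agent.R301.PD
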