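import Pool.Agent.R301.PD.Coef

/-!
Contraction of the weighted norms under `U` and `U⁻¹`.
-/

open MeasureTheory UnitAddTorus
open scoped ContDiff ComplexConjugate

namespace Pool.Agent.R301.PD

attribute [local instance] instMeasureSpaceUnitAddCircle

theorem memL2 (f : L2) : MemLp f 2 (volume : Measure T2) := Lp.memLp f

theorem mp_symm : MeasurePreserving phi.toHomeo.symm (volume : Measure T2) volume :=
  phi.mp.symm phi.toHomeo.toMeasurableEquiv

/-- the inverse composition operator -/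
noncomputable def V (f : L2) : L2 := Lp.compMeasurePreserving phi.toHomeo.symm mp_symm f

theorem U_ae (f : L2) : (phi.U f : T2 → ℂ) =ᵐ[volume] fun x => f (shA (sig x)) :=
  Lp.coeFn_compMeasurePreserving f phi.mp

theorem V_ae (f : L2) : (V f : T2 → ℂ) =ᵐ[volume] fun x => f (sig.symm (shA.symm x)) :=
  Lp.coeFn_compMeasurePreserving f mp_symm

theorem fc_U (f : L2) (m p : ℤ) :
    fc (phi.U f) m p = fc (fun x => bb x ^ p * f (shA x)) m p := by
  rw [fc_congr (U_ae f)]
  exact fc_sig (fun y => f (shA y)) m p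

theorem fc_V (f : L2) (m p : ℤ) :
    fc (V f) m p = fc (fun x => bb x ^ (-(p + m)) * f x) m (p + m) := by
  rw [fc_congr (V_ae f)]
  rw [fc_shA_symm (fun y => f (sig.symm y)) m p]
  exact fc_sig_symm f m (p + m)

theorem memLp_shA (f : L2) : MemLp (fun x => f (shA x)) 2 (volume : Measure T2) :=
  (memL2 f).comp_measurePreserving mp_shA

/-- functions with frequencies in the closed quadrants 1 and 3, mean zero -/
def D1 (f : L2) : Prop := ∀ m p : ℤ, (m * p < 0 ∨ (m = 0 ∧ p = 0)) → fc f m p = 0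

/-- functions with frequencies in the open quadrants 2 and 4 -/
def D0 (f : L2) : Prop := ∀ m p : ℤ, ¬ (m * p < 0) → fc f m p = 0

noncomputable def N1 (f : L2) : ℝ :=
  ∑' x : ℤ × ℤ, ‖fc f x.2 x.1‖ ^ 2 / ((x.2.natAbs : ℝ) + x.1.natAbs)

noncomputable def N0 (f : L2) : ℝ :=
  ∑' x : ℤ × ℤ, ‖fc f x.2 x.1‖ ^ 2 / (x.1.natAbs : ℝ)

theorem div_nat_le (a : ℝ) (ha : 0 ≤ a) (n : ℕ) : a / (n : ℝ) ≤ a := by
  rcases Nat.eq_zero_or_pos n with h | h
  · subst h; simpa using ha
  · exact div_le_self ha (by exact_mod_cast h)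

theorem summable_div {a : ℤ × ℤ → ℝ} (ha : Summable a) (h0 : ∀ x, 0 ≤ a x) (n : ℤ × ℤ → ℕ) :
    Summable fun x => a x / (n x : ℝ) :=
  Summable.of_nonneg_of_le (fun x => div_nonneg (h0 x) (by positivity))
    (fun x => div_nat_le _ (h0 x) _) ha

theorem rows_le {a b : ℤ × ℤ → ℝ} (ha : Summable a) (hb : Summable b) (c : ℝ)
    (h : ∀ p, ∑' m, a (p, m) ≤ c * ∑' m, b (p, m)) : ∑' x, a x ≤ c * ∑' x, b x := by
  rw [ha.tsum_prod, hb.tsum_prod, ← tsum_mul_left]
  exact Summable.tsum_le_tsum h ha.prod (hb.prod.mul_left _)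

theorem U_rows {f : L2} (hf : D1 f) (p : ℤ) :
    (∀ m, (m * p < 0 ∨ p = 0) → fc (phi.U f) m p = 0) ∧
    ∑' m : ℤ, ‖fc (phi.U f) m p‖ ^ 2 / ((m.natAbs : ℝ) + p.natAbs)
      ≤ (81/100) * ((∑' m : ℤ, ‖fc f m (p - m)‖ ^ 2) / p.natAbs) := by
  have hF := memLp_shA f
  have e : ∀ m p, fc (fun x => f (shA x)) m p = fc f m (p - m) := fun m p => fc_shA f m p
  simp_rw [fc_U, ← e]
  rcases lt_trichotomy p 0 with h | h | h
  · obtain ⟨s, hs⟩ : ∃ s : ℕ, p = -(s : ℤ) := ⟨p.natAbs, by omega⟩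
    subst hs
    have hs1 : 1 ≤ s := by omega
    obtain ⟨h1, h2⟩ := row_neg hF (-(s : ℤ)) s hs1 (m0 := 0) le_rfl (fun m hm => by
      rw [e]
      exact hf _ _ (Or.inl (mul_neg_of_pos_of_neg (by omega) (by omega))))
    refine ⟨fun m hm => ?_, ?_⟩
    · apply h1
      rcases hm with hm | hm
      · by_contra hc
        have : 0 ≤ m * -(s : ℤ) := mul_nonneg_of_nonpos_of_nonpos (by omega) (by omega)
        omega
      · omega
    · simpa using h2
  · subst h
    have z : ∀ m, fc (fun x => bb x ^ (0:ℤ) * f (shA x)) m 0 = 0 := by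
      intro m
      simp only [zpow_zero, one_mul]
      rw [e]
      apply hf
      rcases eq_or_ne m 0 with hm | hm
      · right; subst hm; simp
      · left
        have : 0 < m * m := mul_self_pos.2 hm
        simp only [zero_sub, mul_neg]; omega
    refine ⟨fun m _ => z m, ?_⟩
    have z' : ∀ m : ℤ, ‖fc (fun x => bb x ^ (0:ℤ) * f (shA x)) m 0‖ ^ 2 /
        ((m.natAbs : ℝ) + (0:ℤ).natAbs) = 0 := by intro m; rw [z]; simp
    rw [tsum_congr z']; simp
  · obtain ⟨s, hs⟩ : ∃ s : ℕ, p = (s : ℤ) := ⟨p.natAbs, by omega⟩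
    subst hs
    have hs1 : 1 ≤ s := by omega
    obtain ⟨h1, h2⟩ := row_pos hF (s : ℤ) s hs1 (m0 := 0) le_rfl (fun m hm => by
      rw [e]
      exact hf _ _ (Or.inl (mul_neg_of_neg_of_pos (by omega) (by omega))))
    refine ⟨fun m hm => ?_, ?_⟩
    · apply h1
      rcases hm with hm | hm
      · by_contra hc
        have : 0 ≤ m * (s : ℤ) := mul_nonneg (by omega) (by omega)
        omega
      · omega
    · simpa using h2

theorem D1_U {f : L2} (hf : D1 f) : D1 (phi.U f) := by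
  intro m p h
  refine (U_rows hf p).1 m ?_
  rcases h with h | h
  · exact Or.inl h
  · exact Or.inr h.2

theorem N1_U {f : L2} (hf : D1 f) : N1 (phi.U f) ≤ (81/100) * N1 f := by
  have hs := summable_fc (memL2 (phi.U f))
  have hs1 := summable_fc (memLp_shA f)
  -- reindexing
  let e : ℤ × ℤ ≃ ℤ × ℤ :=
    { toFun := fun x => (x.1 - x.2, x.2)
      invFun := fun x => (x.1 + x.2, x.2)
      left_inv := fun x => by simp
      right_inv := fun x => by simp }
  have h2 : N1 f = ∑' x : ℤ × ℤ, ‖fc f x.2 (x.1 - x.2)‖ ^ 2 / (x.1.natAbs : ℝ) := by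
    unfold N1
    rw [← e.tsum_eq]
    refine tsum_congr fun x => ?_
    change ‖fc f x.2 (x.1 - x.2)‖ ^ 2 / ((x.2.natAbs : ℝ) + (x.1 - x.2).natAbs)
      = ‖fc f x.2 (x.1 - x.2)‖ ^ 2 / (x.1.natAbs : ℝ)
    by_cases hx : x.2 * (x.1 - x.2) < 0
    · rw [hf _ _ (Or.inl hx)]; simp
    · have hx' : 0 ≤ x.2 * (x.1 - x.2) := not_lt.1 hx
      have : x.1.natAbs = x.2.natAbs + (x.1 - x.2).natAbs := by
        rcases mul_nonneg_iff.1 hx' with ⟨h1, h2⟩ | ⟨h1, h2⟩ <;> omega
      rw [this]; push_cast; rfl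
  have h3 : Summable fun x : ℤ × ℤ => ‖fc f x.2 (x.1 - x.2)‖ ^ 2 / (x.1.natAbs : ℝ) := by
    have := summable_div hs1 (fun x => by positivity) (fun x => x.1.natAbs)
    refine this.congr fun x => ?_
    rw [fc_shA]
  rw [h2]
  unfold N1
  refine rows_le ?_ h3 _ (fun p => ?_)
  · have := summable_div hs (fun x => by positivity) (fun x => x.2.natAbs + x.1.natAbs)
    refine this.congr fun x => ?_
    push_cast; rfl
  · have := (U_rows hf p).2
    rw [← tsum_div_const] at this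
    exact this

theorem V_rows {f : L2} (hf : D0 f) (q : ℤ) :
    (∀ m, ¬ (m * (q - m) < 0) → fc (fun x => bb x ^ (-q) * f x) m q = 0) ∧
    ∑' m : ℤ, ‖fc (fun x => bb x ^ (-q) * f x) m q‖ ^ 2 / ((q - m).natAbs : ℝ)
      ≤ (81/100) * ((∑' m : ℤ, ‖fc f m q‖ ^ 2) / q.natAbs) := by
  have hF := memL2 f
  have key : ∀ (h1 : ∀ m, ¬ (m * (q - m) < 0) → fc (fun x => bb x ^ (-q) * f x) m q = 0)
      (h3 : ∀ m, m * (q - m) < 0 → (q ≤ -1 ∧ 1 ≤ m ∨ 1 ≤ q ∧ m ≤ -1) ∨
        fc (fun x => bb x ^ (-q) * f x) m q = 0),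
      ∀ m : ℤ, ‖fc (fun x => bb x ^ (-q) * f x) m q‖ ^ 2 / ((q - m).natAbs : ℝ)
        = ‖fc (fun x => bb x ^ (-q) * f x) m q‖ ^ 2 / ((m.natAbs : ℝ) + q.natAbs) := by
    intro h1 h3 m
    by_cases hm : m * (q - m) < 0
    · rcases h3 m hm with h | h
      · have : (q - m).natAbs = m.natAbs + q.natAbs := by omega
        rw [this]; push_cast; rfl
      · rw [h]; simp
    · rw [h1 m hm]; simp
  rcases lt_trichotomy q 0 with h | h | h
  · obtain ⟨s, hs⟩ : ∃ s : ℕ, q = -(s : ℤ) := ⟨q.natAbs, by omega⟩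
    subst hs
    have hs1 : 1 ≤ s := by omega
    obtain ⟨h1, h2⟩ := row_pos hF (-(s : ℤ)) s hs1 (m0 := 1) (by norm_num) (fun m hm => by
      apply hf
      have : 0 ≤ m * -(s : ℤ) := mul_nonneg_of_nonpos_of_nonpos (by omega) (by omega)
      omega)
    have h1' : ∀ m, ¬ (m * (-(s : ℤ) - m) < 0) →
        fc (fun x => bb x ^ (-(-(s : ℤ))) * f x) m (-(s : ℤ)) = 0 := by
      intro m hm
      rw [neg_neg]
      apply h1
      by_contra hc
      exact hm (mul_neg_of_pos_of_neg (by omega) (by omega))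
    refine ⟨h1', ?_⟩
    rw [tsum_congr (key h1' (fun m hm => ?_))]
    · simpa using h2
    · rcases lt_or_ge m 1 with hm1 | hm1
      · right; rw [neg_neg]; exact h1 m hm1
      · left; left; omega
  · subst h
    have z : ∀ m, fc (fun x => bb x ^ (-(0:ℤ)) * f x) m 0 = 0 := by
      intro m
      simp only [neg_zero, zpow_zero, one_mul]
      apply hf; simp
    refine ⟨fun m _ => z m, ?_⟩
    simp only [z]; simp
  · obtain ⟨s, hs⟩ : ∃ s : ℕ, q = (s : ℤ) := ⟨q.natAbs, by omega⟩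
    subst hs
    have hs1 : 1 ≤ s := by omega
    obtain ⟨h1, h2⟩ := row_neg hF (s : ℤ) s hs1 (m0 := 1) (by norm_num) (fun m hm => by
      apply hf
      have : 0 ≤ m * (s : ℤ) := mul_nonneg (by omega) (by omega)
      omega)
    have h1' : ∀ m, ¬ (m * ((s : ℤ) - m) < 0) →
        fc (fun x => bb x ^ (-(s : ℤ)) * f x) m (s : ℤ) = 0 := by
      intro m hm
      apply h1
      by_contra hc
      exact hm (mul_neg_of_neg_of_pos (by omega) (by omega))
    refine ⟨h1', ?_⟩
    rw [tsum_congr (key h1' (fun m hm => ?_))]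
    · simpa using h2
    · rcases lt_or_ge (-1) m with hm1 | hm1
      · right; exact h1 m hm1
      · left; right; omega

theorem D0_V {f : L2} (hf : D0 f) : D0 (V f) := by
  intro m p h
  rw [fc_V]
  refine (V_rows hf (p + m)).1 m ?_
  rwa [add_sub_cancel_right]

theorem N0_V {f : L2} (hf : D0 f) : N0 (V f) ≤ (81/100) * N0 f := by
  have hs := summable_fc (memL2 (V f))
  have hs1 := summable_fc (memL2 f)
  let e : ℤ × ℤ ≃ ℤ × ℤ :=
    { toFun := fun x => (x.1 - x.2, x.2)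
      invFun := fun x => (x.1 + x.2, x.2)
      left_inv := fun x => by simp
      right_inv := fun x => by simp }
  have e1 : ∀ x : ℤ × ℤ, ‖fc (V f) (e x).2 (e x).1‖ ^ 2 / ((e x).1.natAbs : ℝ)
      = ‖fc (fun y => bb y ^ (-x.1) * f y) x.2 x.1‖ ^ 2 / ((x.1 - x.2).natAbs : ℝ) := by
    intro x
    change ‖fc (V f) x.2 (x.1 - x.2)‖ ^ 2 / ((x.1 - x.2).natAbs : ℝ) = _
    rw [fc_V, sub_add_cancel]
  have h2 : N0 (V f) = ∑' x : ℤ × ℤ,
      ‖fc (fun y => bb y ^ (-x.1) * f y) x.2 x.1‖ ^ 2 / ((x.1 - x.2).natAbs : ℝ) := by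
    unfold N0
    rw [← e.tsum_eq]
    exact tsum_congr e1
  have h3 : Summable fun x : ℤ × ℤ =>
      ‖fc (fun y => bb y ^ (-x.1) * f y) x.2 x.1‖ ^ 2 / ((x.1 - x.2).natAbs : ℝ) := by
    have := summable_div hs (fun x => by positivity) (fun x => x.1.natAbs)
    exact (e.summable_iff.2 this).congr e1
  rw [h2]
  unfold N0
  refine rows_le h3 (summable_div hs1 (fun x => by positivity) (fun x => x.1.natAbs)) _
    (fun q => ?_)
  have := (V_rows hf q).2
  rw [← tsum_div_const] at this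
  exact this

theorem D1_iter {f : L2} (hf : D1 f) (n : ℕ) : D1 (phi.U^[n] f) := by
  induction n with
  | zero => exact hf
  | succ n ih => rw [Function.iterate_succ_apply']; exact D1_U ih

theorem N1_iter {f : L2} (hf : D1 f) (n : ℕ) : N1 (phi.U^[n] f) ≤ (81/100) ^ n * N1 f := by
  induction n with
  | zero => simp
  | succ n ih =>
    rw [Function.iterate_succ_apply']
    calc _ ≤ _ := N1_U (D1_iter hf n)
      _ ≤ (81/100) * ((81/100) ^ n * N1 f) := by linarith
      _ = _ := by ring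

theorem D0_iter {f : L2} (hf : D0 f) (n : ℕ) : D0 (V^[n] f) := by
  induction n with
  | zero => exact hf
  | succ n ih => rw [Function.iterate_succ_apply']; exact D0_V ih

theorem N0_iter {f : L2} (hf : D0 f) (n : ℕ) : N0 (V^[n] f) ≤ (81/100) ^ n * N0 f := by
  induction n with
  | zero => simp
  | succ n ih =>
    rw [Function.iterate_succ_apply']
    calc _ ≤ _ := N0_V (D0_iter hf n)
      _ ≤ (81/100) * ((81/100) ^ n * N0 f) := by linarith
      _ = _ := by ring

end Pool.Agent.R301.PD
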