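import Mathlib

/-!
Pulsed diffusions on the flat torus `T² = ℝ²/ℤ²`: definitions used in the statement for
MP_459901_an.
-/

open MeasureTheory UnitAddTorus
open scoped ContDiff

namespace Pool.Agent.R301.PD

attribute [local instance] instMeasureSpaceUnitAddCircle

/-- The flat torus `T² = ℝ²/ℤ²`, with its normalised area measure `volume`. -/
abbrev T2 := UnitAddTorus (Fin 2)

/-- The complex Hilbert space `L²(T²)`. -/
noncomputable abbrev L2 := Lp ℂ 2 (volume : Measure T2)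

/-- The covering map `ℝ² → T² = ℝ²/ℤ²`. -/
def cov (x : Fin 2 → ℝ) : T2 := fun i => ((x i : ℝ) : UnitAddCircle)

/-- Smooth volume preserving diffeomorphisms of `T²`: homeomorphisms that preserve `volume` and
that lift, together with their inverses, to `C^∞` maps of `ℝ²`. -/
structure VolDiffeo where
  /-- the underlying homeomorphism -/
  toHomeo : T2 ≃ₜ T2
  smooth : ∃ Φ : (Fin 2 → ℝ) → (Fin 2 → ℝ), ContDiff ℝ ∞ Φ ∧
    ∀ x, toHomeo (cov x) = cov (Φ x)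
  smooth_symm : ∃ Ψ : (Fin 2 → ℝ) → (Fin 2 → ℝ), ContDiff ℝ ∞ Ψ ∧
    ∀ x, toHomeo.symm (cov x) = cov (Ψ x)
  mp : MeasurePreserving toHomeo (volume : Measure T2) volume

/-- The composition operator `U f = f ∘ φ` on `L²(T²)`. -/
noncomputable def VolDiffeo.U (φ : VolDiffeo) (f : L2) : L2 :=
  Lp.compMeasurePreserving φ.toHomeo φ.mp f

/-- The eigenvalue `4π²|k|²` of `-Δ` on `e_k(x) = exp(2πi k·x)`. -/
noncomputable def eig (k : Fin 2 → ℤ) : ℝ := 4 * Real.pi ^ 2 * ((k 0 : ℝ) ^ 2 + (k 1 : ℝ) ^ 2)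

/-- The heat operator `e^{νΔ} f = ∑_k exp(-4π²ν|k|²) f̂(k) e_k` on `L²(T²)`. -/
noncomputable def heat (ν : ℝ) (f : L2) : L2 :=
  ∑' k : Fin 2 → ℤ, ((Real.exp (-ν * eig k) : ℂ) * mFourierCoeff f k) • mFourierLp 2 k

/-- Mean zero functions. -/
def MeanZero (f : L2) : Prop := ∫ x : T2, f x = 0

/-- Real valued functions. -/
def RealValued (f : L2) : Prop := ∀ᵐ x : T2, (f x).im = 0

/-- `f ∈ Ḣ^s(T²)` (mean zero, `∑_k (4π²|k|²)^s |f̂(k)|² < ∞`). -/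
def MemH (s : ℝ) (f : L2) : Prop :=
  MeanZero f ∧ Summable fun k : Fin 2 → ℤ => eig k ^ s * ‖mFourierCoeff f k‖ ^ 2

/-- The homogeneous Sobolev norm `‖f‖_s = ‖(-Δ)^{s/2} f‖`. -/
noncomputable def sobNorm (s : ℝ) (f : L2) : ℝ :=
  Real.sqrt (∑' k : Fin 2 → ℤ, eig k ^ s * ‖mFourierCoeff f k‖ ^ 2)

/-- `φ` is exponentially mixing: for some `α, β, c₁, c₂ > 0`,
`|⟨f ∘ φⁿ, g⟩| ≤ c₁ e^{-c₂ n} ‖f‖_α ‖g‖_β` for all `n ≥ 0`, `f ∈ Ḣ^α`, `g ∈ Ḣ^β`. -/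
def ExpMixing (φ : VolDiffeo) : Prop :=
  ∃ α > (0 : ℝ), ∃ β > (0 : ℝ), ∃ c₁ > (0 : ℝ), ∃ c₂ > (0 : ℝ), ∀ (n : ℕ) (f g : L2),
    MemH α f → MemH β g →
      ‖inner ℂ g (φ.U^[n] f)‖ ≤ c₁ * Real.exp (-c₂ * n) * sobNorm α f * sobNorm β g

/-- One step `θ ↦ e^{νΔ} U θ` of the pulsed diffusion. -/
noncomputable def pulse (φ : VolDiffeo) (ν : ℝ) (θ : L2) : L2 := heat ν (φ.U θ)

/-- The conclusion asked for in the question, for one map `φ`. -/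
def UniformExpGrowth (φ : VolDiffeo) : Prop :=
  ∃ C > (0 : ℝ), ∃ γ > (1 : ℝ), ∃ ν₀ > (0 : ℝ), ∀ ν : ℝ, 0 < ν → ν ≤ ν₀ → ∀ n : ℕ, 1 ≤ n →
    ∀ θ₀ : L2, MeanZero θ₀ → RealValued θ₀ →
      ‖(pulse φ ν)^[n] θ₀‖ ≤ Real.exp (-(ν * γ ^ n / C)) * ‖θ₀‖

end Pool.Agent.R301.PD
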