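import Pool.Agent.R301.PD.Mix

/-!
Lower bound for the pulsed diffusion started at `2 cos(2π x₁)`.
-/

open MeasureTheory UnitAddTorus
open scoped ContDiff ComplexConjugate

namespace Pool.Agent.R301.PD

attribute [local instance] instMeasureSpaceUnitAddCircle

/-- The initial datum `2 cos (2π x₁)`. -/
noncomputable def th0 : L2 := mFourierLp 2 ![0, 1] + mFourierLp 2 ![0, -1]

theorem fc_mFourierLp (k : Fin 2 → ℤ) (m p : ℤ) :
    fc (mFourierLp 2 k : L2) m p = if ![m, p] = k then 1 else 0 := by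
  have h := repr_eq (mFourierLp 2 k : L2) ![m, p]
  have h2 : mFourierBasis.repr (mFourierLp 2 k : L2) ![m, p]
      = inner ℂ (mFourierBasis ![m, p]) (mFourierBasis k : L2) := by
    rw [mFourierBasis.repr_apply_apply, coe_mFourierBasis]
  rw [h2, orthonormal_iff_ite.1 mFourierBasis.orthonormal] at h
  exact h.symm

theorem fc_th0 (m p : ℤ) : fc th0 m p = if m = 0 ∧ (p = 1 ∨ p = -1) then 1 else 0 := by
  unfold th0
  rw [fc_add, fc_mFourierLp, fc_mFourierLp]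
  by_cases hm : m = 0
  · by_cases h1 : p = 1
    · subst hm; subst h1; simp
    · by_cases h2 : p = -1
      · subst hm; subst h2; simp
      · simp [hm, h1, h2]
  · simp [hm]

theorem D1_th0 : D1 th0 := by
  intro m p h
  rw [fc_th0, if_neg]
  rintro ⟨rfl, h2⟩
  rcases h with h | h
  · simp at h
  · rcases h2 with rfl | rfl <;> simp at h

theorem meanZero_th0 : MeanZero th0 := by
  rw [meanZero_iff]; exact D1_th0 0 0 (Or.inr ⟨rfl, rfl⟩)

theorem real_th0 : RealValued th0 := by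
  unfold RealValued th0
  filter_upwards [Lp.coeFn_add (mFourierLp 2 ![0, 1] : L2) (mFourierLp 2 ![0, -1]),
    coeFn_mFourierLp (d := Fin 2) 2 ![0, 1], coeFn_mFourierLp (d := Fin 2) 2 ![0, -1]] with x h h1 h2
  rw [h, Pi.add_apply, h1, h2, mFourier_eq, mFourier_eq]
  have e : zz (x 1) ^ (-1 : ℤ) = conj (zz (x 1)) := by
    rw [zpow_neg_one]; exact Complex.inv_eq_conj (zz_norm _)
  simp [e]

theorem norm_th0 : ‖th0‖ ≤ 2 := by
  unfold th0
  have h1 : ‖(mFourierLp 2 ![0, 1] : L2)‖ = 1 := orthonormal_mFourier.1 _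
  have h2 : ‖(mFourierLp 2 ![0, -1] : L2)‖ = 1 := orthonormal_mFourier.1 _
  calc _ ≤ _ := norm_add_le _ _
    _ = 2 := by rw [h1, h2]; norm_num

theorem D1_pulse {ν : ℝ} (hν : 0 ≤ ν) {θ : L2} (h : D1 θ) : D1 (pulse phi ν θ) := by
  intro m p hm
  unfold pulse
  rw [fc_heat hν, D1_U h m p hm, mul_zero]

theorem fc_U_01 {θ : L2} (h : D1 θ) : fc (phi.U θ) 0 1 = -(1/10) * fc θ 0 1 := by
  rw [fc_U]
  simp only [zpow_one]
  obtain ⟨g, hg, h1, h2⟩ := step_bb (memLp_shA θ) 1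
  simp only [] at h1 h2
  have h3 := seq_supp hg 0 (fun m hm => by
    rw [← h1, fc_shA]
    exact h _ _ (Or.inl (mul_neg_of_neg_of_pos hm (by omega))))
  rw [h2 0, h3 (0 - 1) (by norm_num)]
  have h4 := h1 0
  rw [h3 (0 - 1) (by norm_num), fc_shA] at h4
  simp only [sub_zero, mul_zero] at h4
  rw [← h4]; ring

theorem eig_01 : eig ![0, 1] = 4 * Real.pi ^ 2 := by unfold eig; simp

theorem pulse_iter {ν : ℝ} (hν : 0 ≤ ν) (n : ℕ) : D1 ((pulse phi ν)^[n] th0) ∧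
    ‖fc ((pulse phi ν)^[n] th0) 0 1‖ = (Real.exp (-(4 * Real.pi ^ 2 * ν)) / 10) ^ n := by
  induction n with
  | zero => exact ⟨D1_th0, by simp [fc_th0]⟩
  | succ n ih =>
    rw [Function.iterate_succ_apply']
    refine ⟨D1_pulse hν ih.1, ?_⟩
    conv_lhs => unfold pulse
    rw [fc_heat hν, eig_01, norm_mul]
    have e : fc (phi.U ((pulse phi ν)^[n] th0)) 0 1 = -(1/10) * fc ((pulse phi ν)^[n] th0) 0 1 :=
      fc_U_01 ih.1
    unfold pulse at e ih
    rw [e, norm_mul, ih.2, Complex.norm_real, Real.norm_eq_abs, abs_of_pos (Real.exp_pos _)]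
    have h10 : ‖(-(1/10) : ℂ)‖ = 1/10 := by norm_num
    have : -ν * (4 * Real.pi ^ 2) = -(4 * Real.pi ^ 2 * ν) := by ring
    rw [h10, this, pow_succ (Real.exp (-(4 * Real.pi ^ 2 * ν)) / 10) n]; ring

theorem lower_bound {ν : ℝ} (hν : 0 ≤ ν) (n : ℕ) :
    (Real.exp (-(4 * Real.pi ^ 2 * ν)) / 10) ^ n ≤ ‖(pulse phi ν)^[n] th0‖ := by
  rw [← (pulse_iter hν n).2]
  have h := hasSum_norm ((pulse phi ν)^[n] th0)
  have h2 : ‖fc ((pulse phi ν)^[n] th0) 0 1‖ ^ 2 ≤ ‖(pulse phi ν)^[n] th0‖ ^ 2 := by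
    rw [← h.tsum_eq]
    exact h.summable.le_tsum ((1, 0) : ℤ × ℤ) (fun j _ => by positivity)
  exact (sq_le_sq₀ (norm_nonneg _) (norm_nonneg _)).1 h2

theorem eventually_small {C γ ν a : ℝ} (hC : 0 < C) (hγ : 1 < γ) (hν : 0 < ν) :
    ∃ n : ℕ, 1 ≤ n ∧ Real.exp (-(ν * γ ^ n / C)) * 2 < Real.exp (-a) ^ n := by
  have h1 : Filter.Tendsto (fun n : ℕ => (n : ℝ) ^ 1 / γ ^ n) Filter.atTop (nhds 0) :=
    tendsto_pow_const_div_const_pow_of_one_lt 1 hγ
  have hb : 0 < ν / (C * (|a| + 1)) := by positivity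
  obtain ⟨n, hn1, hn2⟩ := ((h1.eventually (gt_mem_nhds hb)).and (Filter.eventually_ge_atTop 1)).exists
  refine ⟨n, hn2, ?_⟩
  have hγn : 0 < γ ^ n := by positivity
  rw [pow_one, div_lt_div_iff₀ hγn (by positivity)] at hn1
  have hn : (1 : ℝ) ≤ n := by exact_mod_cast hn2
  have h2 : (n : ℝ) * (|a| + 1) < ν * γ ^ n / C := by
    rw [lt_div_iff₀ hC]; nlinarith
  have h3 : (2 : ℝ) < Real.exp 1 := by have := Real.exp_one_gt_d9; linarith
  have h4 : Real.exp (-(ν * γ ^ n / C)) * Real.exp 1 ≤ Real.exp (-a) ^ n := by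
    rw [← Real.exp_add, ← Real.exp_nat_mul, Real.exp_le_exp]
    have := le_abs_self a
    nlinarith
  calc _ < Real.exp (-(ν * γ ^ n / C)) * Real.exp 1 := by gcongr
    _ ≤ _ := h4

end Pool.Agent.R301.PD
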