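import Pool.Agent.R301.PD.Defs

/-!
The circle map `beta`, the shears of the torus and the diffeomorphism `φ`.
-/

open MeasureTheory UnitAddTorus
open scoped ContDiff ComplexConjugate

namespace Pool.Agent.R301.PD

attribute [local instance] instMeasureSpaceUnitAddCircle

local instance instHaar : Measure.IsAddHaarMeasure (volume : Measure UnitAddCircle) :=
  inferInstanceAs (Measure.IsAddHaarMeasure AddCircle.haarAddCircle)
local instance instProb : IsProbabilityMeasure (volume : Measure UnitAddCircle) :=
  inferInstanceAs (IsProbabilityMeasure AddCircle.haarAddCircle)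

/-- the periodic part of the lift -/
noncomputable def etat (x : ℝ) : ℝ :=
  (1 / Real.pi) * Real.arctan ((1/10) * Real.sin (2 * Real.pi * x) /
    (1 - (1/10) * Real.cos (2 * Real.pi * x)))

theorem den_pos (x : ℝ) : 0 < 1 - (1/10) * Real.cos x := by
  have := Real.cos_le_one x; linarith

theorem etat_periodic : Function.Periodic etat 1 := by
  intro x
  unfold etat
  have h : 2 * Real.pi * (x + 1) = 2 * Real.pi * x + 2 * Real.pi := by ring
  rw [h, Real.sin_add_two_pi, Real.cos_add_two_pi]

theorem etat_neg (x : ℝ) : etat (-x) = - etat x := by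
  unfold etat
  have h : 2 * Real.pi * (-x) = -(2 * Real.pi * x) := by ring
  rw [h, Real.sin_neg, Real.cos_neg, mul_neg, neg_div, Real.arctan_neg, mul_neg]

theorem contDiff_etat : ContDiff ℝ ∞ etat := by
  unfold etat
  have h1 : ContDiff ℝ ∞ fun x : ℝ => (1/10) * Real.sin (2 * Real.pi * x) := by fun_prop
  have h2 : ContDiff ℝ ∞ fun x : ℝ => 1 - (1/10) * Real.cos (2 * Real.pi * x) := by fun_prop
  have h3 := h1.div h2 (fun x => (den_pos _).ne')
  exact contDiff_const.mul (Real.contDiff_arctan.comp h3)

/-- the periodic part on the circle -/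
noncomputable def eta : UnitAddCircle → ℝ := etat_periodic.lift

theorem eta_coe (x : ℝ) : eta (x : UnitAddCircle) = etat x := rfl

theorem continuous_eta : Continuous eta := by
  have h : Continuous etat := contDiff_etat.continuous
  exact continuous_coinduced_dom.2 (by simpa [Function.comp_def, eta] using! h)

/-- the circle diffeomorphism `b` in additive notation -/
noncomputable def beta (x : UnitAddCircle) : UnitAddCircle := x + (eta x : ℝ)

theorem beta_coe (x : ℝ) : beta (x : UnitAddCircle) = ((x + etat x : ℝ) : UnitAddCircle) := by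
  unfold beta; rw [eta_coe]; push_cast; rfl

theorem continuous_beta : Continuous beta := by
  unfold beta
  exact continuous_id.add ((AddCircle.continuous_mk' 1).comp continuous_eta)

theorem beta_neg (x : UnitAddCircle) : beta (-x) = - beta x := by
  induction x using QuotientAddGroup.induction_on with
  | H x =>
    have h1 : (-(x : UnitAddCircle)) = ((-x : ℝ) : UnitAddCircle) := by push_cast; rfl
    change beta (-(x : UnitAddCircle)) = - beta (x : UnitAddCircle)
    rw [h1, beta_coe, beta_coe, etat_neg, ← AddCircle.coe_neg]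
    congr 1; ring

/-- `z` -/
noncomputable def zz (x : UnitAddCircle) : ℂ := (AddCircle.toCircle x : ℂ)

theorem zz_add (x y : UnitAddCircle) : zz (x + y) = zz x * zz y := by
  simp [zz, AddCircle.toCircle_add]

theorem zz_ne (x : UnitAddCircle) : zz x ≠ 0 := by simp [zz]

theorem zz_norm (x : UnitAddCircle) : ‖zz x‖ = 1 := Circle.norm_coe _

theorem zz_neg (x : UnitAddCircle) : zz (-x) = (zz x)⁻¹ := by
  have h := zz_add x (-x)
  rw [add_neg_cancel] at h
  have h0 : zz 0 = 1 := by simp [zz]
  rw [h0] at h
  exact eq_inv_of_mul_eq_one_right h.symm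

theorem fourier_eq (n : ℤ) (x : UnitAddCircle) : (fourier n x : ℂ) = (zz x) ^ n := by
  rw [fourier_apply, AddCircle.toCircle_zsmul]
  simp [zz]

theorem zz_coe (x : ℝ) : zz (x : UnitAddCircle)
    = ((Real.cos (2 * Real.pi * x) : ℝ) : ℂ)
      + ((Real.sin (2 * Real.pi * x) : ℝ) : ℂ) * Complex.I := by
  have h := fourier_coe_apply (T := 1) (n := 1) (x := x)
  have h2 : (fourier 1 (x : UnitAddCircle) : ℂ) = zz x := by rw [fourier_eq]; simp
  rw [← h2, h]
  have h3 : 2 * (Real.pi : ℂ) * Complex.I * ((1 : ℤ) : ℂ) * (x : ℂ) / ((1 : ℝ) : ℂ)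
      = ((2 * Real.pi * x : ℝ) : ℂ) * Complex.I := by push_cast; ring
  rw [h3, Complex.exp_mul_I, ← Complex.ofReal_cos, ← Complex.ofReal_sin]

theorem exp_two_arctan (u : ℝ) :
    Complex.exp (2 * (Real.arctan u) * Complex.I) * (1 - u * Complex.I) = 1 + u * Complex.I := by
  have h1 : Complex.exp ((Real.arctan u : ℂ) * Complex.I)
      = ((1 / Real.sqrt (1 + u ^ 2) : ℝ) : ℂ) * (1 + u * Complex.I) := by
    rw [Complex.exp_mul_I, ← Complex.ofReal_cos, ← Complex.ofReal_sin, Real.cos_arctan,
      Real.sin_arctan]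
    push_cast; ring
  have h2 : Complex.exp (2 * (Real.arctan u) * Complex.I)
      = Complex.exp ((Real.arctan u : ℂ) * Complex.I) ^ 2 := by
    rw [← Complex.exp_nat_mul]; congr 1; push_cast; ring
  have hp : 0 < 1 + u ^ 2 := by positivity
  have h3 : ((1 / Real.sqrt (1 + u ^ 2) : ℝ) : ℂ) ^ 2 * (1 + (u:ℂ) ^ 2) = 1 := by
    rw [← Complex.ofReal_pow, div_pow, Real.sq_sqrt hp.le, one_pow]
    have : (1 + (u:ℂ) ^ 2) = ((1 + u ^ 2 : ℝ) : ℂ) := by push_cast; rfl
    rw [this, ← Complex.ofReal_mul, one_div_mul_cancel hp.ne', Complex.ofReal_one]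
  rw [h2, h1, mul_pow]
  calc _ = (((1 / Real.sqrt (1 + u ^ 2) : ℝ) : ℂ) ^ 2 * (1 + (u:ℂ) ^ 2)) * (1 + u * Complex.I) := by
        have hI : Complex.I ^ 2 = -1 := Complex.I_sq
        linear_combination (- (((1 / Real.sqrt (1 + u ^ 2) : ℝ) : ℂ) ^ 2) * (1 + u * Complex.I)
          * (u:ℂ)^2) * hI
    _ = _ := by rw [h3, one_mul]

/-- `b = zz ∘ beta` is the Blaschke factor. -/
theorem bb_eq (x : UnitAddCircle) : zz (beta x) * (1 - (1/10) * zz x) = zz x - 1/10 := by
  induction x using QuotientAddGroup.induction_on with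
  | H x =>
    change zz (beta (x : UnitAddCircle)) * (1 - (1/10) * zz (x : UnitAddCircle))
      = zz (x : UnitAddCircle) - 1/10
    have hb : beta (x : UnitAddCircle) = (x : UnitAddCircle) + ((etat x : ℝ) : UnitAddCircle) := by
      rw [beta_coe]; push_cast; rfl
    rw [hb, zz_add]
    set s := Real.sin (2 * Real.pi * x) with hs
    set c := Real.cos (2 * Real.pi * x) with hc
    have hd : 0 < 1 - (1/10) * c := den_pos _
    set u := (1/10) * s / (1 - (1/10) * c) with hu
    have h1 : zz ((etat x : ℝ) : UnitAddCircle) = Complex.exp (2 * (Real.arctan u) * Complex.I) := by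
      have h := fourier_coe_apply (T := 1) (n := 1) (x := etat x)
      have h2 : (fourier 1 ((etat x : ℝ) : UnitAddCircle) : ℂ) = zz (etat x : ℝ) := by
        rw [fourier_eq]; simp
      rw [← h2, h]
      congr 1
      have : etat x = (1 / Real.pi) * Real.arctan u := rfl
      rw [this]
      have hpi : (Real.pi : ℂ) ≠ 0 := by exact_mod_cast Real.pi_ne_zero
      push_cast
      field_simp
    have h2 := exp_two_arctan u
    have h3 : zz (x : UnitAddCircle) = (c : ℂ) + s * Complex.I := zz_coe x
    have hcs : (c : ℂ) ^ 2 + (s:ℂ) ^ 2 = 1 := by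
      have : c ^ 2 + s ^ 2 = 1 := Real.cos_sq_add_sin_sq _
      exact_mod_cast this
    have hdc : ((1 - (1/10) * c : ℝ) : ℂ) ≠ 0 := by exact_mod_cast hd.ne'
    have hud : (u : ℂ) * ((1 - (1/10) * c : ℝ) : ℂ) = (1/10) * s := by
      rw [← Complex.ofReal_mul, hu, div_mul_cancel₀ _ hd.ne']; push_cast; ring
    rw [h1, h3]
    set E := Complex.exp (2 * (Real.arctan u) * Complex.I) with hE
    have hud' : (u : ℂ) * (1 - (1/10) * c) = (1/10) * s := by
      rw [← hud]; push_cast; ring
    -- E (1 - μ z) = 1 - μ z̄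
    have h4 : E * (1 - (1/10) * ((c : ℂ) + s * Complex.I))
        = 1 - (1/10) * ((c : ℂ) - s * Complex.I) := by
      have e1 : (1 - (1/10) * ((c : ℂ) + s * Complex.I))
          = (1 - (1/10) * (c:ℂ)) * (1 - u * Complex.I) := by
        linear_combination Complex.I * hud'
      have e2 : 1 - (1/10) * ((c : ℂ) - s * Complex.I)
          = (1 - (1/10) * (c:ℂ)) * (1 + u * Complex.I) := by
        linear_combination (-Complex.I) * hud'
      rw [e1, e2]
      linear_combination (1 - (1/10) * (c:ℂ)) * h2
    have hI : Complex.I ^ 2 = -1 := Complex.I_sq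
    linear_combination ((c : ℂ) + s * Complex.I) * h4 - (1/10) * hcs + (1/10) * (s:ℂ)^2 * hI

/-- The shear `σ(x₀,x₁) = (x₀, x₁ + β(x₀))`. -/
noncomputable def sig : T2 ≃ₜ T2 where
  toFun x := ![x 0, x 1 + beta (x 0)]
  invFun x := ![x 0, x 1 - beta (x 0)]
  left_inv x := by ext i; fin_cases i <;> simp
  right_inv x := by ext i; fin_cases i <;> simp
  continuous_toFun := by
    refine continuous_pi fun i => ?_
    fin_cases i
    · exact continuous_apply 0
    · exact (continuous_apply 1).add (continuous_beta.comp (continuous_apply 0))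
  continuous_invFun := by
    refine continuous_pi fun i => ?_
    fin_cases i
    · exact continuous_apply 0
    · exact (continuous_apply 1).sub (continuous_beta.comp (continuous_apply 0))

/-- The linear map `A(x₀,x₁) = (x₀ + x₁, x₁)`. -/
def shA : T2 ≃ₜ T2 where
  toFun x := ![x 0 + x 1, x 1]
  invFun x := ![x 0 - x 1, x 1]
  left_inv x := by ext i; fin_cases i <;> simp
  right_inv x := by ext i; fin_cases i <;> simp
  continuous_toFun := by
    refine continuous_pi fun i => ?_
    fin_cases i
    · exact (continuous_apply 0).add (continuous_apply 1)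
    · exact continuous_apply 1
  continuous_invFun := by
    refine continuous_pi fun i => ?_
    fin_cases i
    · exact (continuous_apply 0).sub (continuous_apply 1)
    · exact continuous_apply 1

theorem mp_arrow : MeasurePreserving (@MeasurableEquiv.finTwoArrow UnitAddCircle _)
    (volume : Measure T2) ((volume : Measure UnitAddCircle).prod volume) :=
  volume_preserving_finTwoArrow UnitAddCircle

theorem mp_sig : MeasurePreserving sig (volume : Measure T2) volume := by
  have h1 : MeasurePreserving (fun p : UnitAddCircle × UnitAddCircle => (p.1, p.2 + beta p.1))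
      ((volume : Measure UnitAddCircle).prod volume) (volume.prod volume) := by
    refine (MeasurePreserving.id (volume : Measure UnitAddCircle)).skew_product
      (g := fun a c => c + beta a) ?_ ?_
    · exact (continuous_snd.add (continuous_beta.comp continuous_fst)).measurable
    · exact Filter.Eventually.of_forall fun a => (measurePreserving_add_right volume (beta a)).map_eq
  have h2 := (mp_arrow.symm _).comp (h1.comp mp_arrow)
  convert h2 using 1
  ext x i
  fin_cases i <;> rfl

theorem mp_shA : MeasurePreserving shA (volume : Measure T2) volume := by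
  have h1 := measurePreserving_add_prod (volume : Measure UnitAddCircle) volume
  have h2 := (mp_arrow.symm _).comp (h1.comp mp_arrow)
  convert h2 using 1
  ext x i
  fin_cases i <;> rfl

/-- The diffeomorphism `φ(x₀,x₁) = (x₀ + x₁ + β(x₀), x₁ + β(x₀))`. -/
noncomputable def phi : VolDiffeo where
  toHomeo := sig.trans shA
  smooth := by
    refine ⟨fun x => ![x 0 + (x 1 + (x 0 + etat (x 0))), x 1 + (x 0 + etat (x 0))], ?_, ?_⟩
    · rw [contDiff_pi]
      intro i
      have h0 : ContDiff ℝ ∞ fun x : Fin 2 → ℝ => x 0 := contDiff_apply ℝ ℝ 0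
      have h1 : ContDiff ℝ ∞ fun x : Fin 2 → ℝ => x 1 := contDiff_apply ℝ ℝ 1
      have he : ContDiff ℝ ∞ fun x : Fin 2 → ℝ => etat (x 0) := contDiff_etat.comp h0
      fin_cases i
      · exact h0.add (h1.add (h0.add he))
      · exact h1.add (h0.add he)
    · intro x
      ext i
      fin_cases i
      · simp [sig, shA, cov, beta_coe]
      · simp [sig, shA, cov, beta_coe]
  smooth_symm := by
    refine ⟨fun x => ![x 0 - x 1, x 1 - ((x 0 - x 1) + etat (x 0 - x 1))], ?_, ?_⟩
    · rw [contDiff_pi]
      intro i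
      have h0 : ContDiff ℝ ∞ fun x : Fin 2 → ℝ => x 0 := contDiff_apply ℝ ℝ 0
      have h1 : ContDiff ℝ ∞ fun x : Fin 2 → ℝ => x 1 := contDiff_apply ℝ ℝ 1
      have he : ContDiff ℝ ∞ fun x : Fin 2 → ℝ => etat (x 0 - x 1) :=
        contDiff_etat.comp (h0.sub h1)
      fin_cases i
      · exact h0.sub h1
      · exact h1.sub ((h0.sub h1).add he)
    · intro x
      ext i
      have h01 : ((x 0 : ℝ) : UnitAddCircle) - ((x 1 : ℝ) : UnitAddCircle)
            = ((x 0 - x 1 : ℝ) : UnitAddCircle) := (AddCircle.coe_sub _ _ _).symm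
      fin_cases i
      · exact h01
      · change ((x 1 : ℝ) : UnitAddCircle)
            - beta (((x 0 : ℝ) : UnitAddCircle) - ((x 1 : ℝ) : UnitAddCircle))
            = ((x 1 - ((x 0 - x 1) + etat (x 0 - x 1)) : ℝ) : UnitAddCircle)
        rw [h01, beta_coe, ← AddCircle.coe_sub]
  mp := mp_shA.comp mp_sig

end Pool.Agent.R301.PD
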