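import Pool.Agent.R301.PD.Contr

/-!
Parseval, the mixing estimate and the exponentially mixing property.
-/

open MeasureTheory UnitAddTorus
open scoped ContDiff ComplexConjugate

namespace Pool.Agent.R301.PD

attribute [local instance] instMeasureSpaceUnitAddCircle

/-- reindexing of frequencies -/
def ek : ℤ × ℤ ≃ (Fin 2 → ℤ) := (Equiv.prodComm ℤ ℤ).trans (finTwoArrowEquiv ℤ).symm

theorem ek0 (x : ℤ × ℤ) : ek x 0 = x.2 := rfl
theorem ek1 (x : ℤ × ℤ) : ek x 1 = x.1 := rfl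

theorem repr_eq (f : L2) (k : Fin 2 → ℤ) : mFourierBasis.repr f k = fc f (k 0) (k 1) := by
  rw [← mFourierCoeff_eq]; exact mFourierBasis_repr f k

theorem hasSum_inner (g f : L2) :
    HasSum (fun x : ℤ × ℤ => conj (fc g x.2 x.1) * fc f x.2 x.1) (inner ℂ g f) := by
  have h := mFourierBasis.hasSum_inner_mul_inner g f
  have h2 := ek.hasSum_iff.2 h
  refine h2.congr_fun fun x => ?_
  simp only [Function.comp]
  rw [← mFourierBasis.repr_apply_apply, ← inner_conj_symm, ← mFourierBasis.repr_apply_apply,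
    repr_eq, repr_eq]
  rfl

theorem hasSum_norm (f : L2) : HasSum (fun x : ℤ × ℤ => ‖fc f x.2 x.1‖ ^ 2) (‖f‖ ^ 2) := by
  have h := RCLike.hasSum_re ℂ (hasSum_inner f f)
  rw [inner_self_eq_norm_sq] at h
  refine h.congr_fun fun x => ?_
  rw [RCLike.conj_mul]
  norm_cast

theorem fc_ext {f g : L2} (h : ∀ m p, fc f m p = fc g m p) : f = g := by
  apply mFourierBasis.repr.injective
  ext k
  rw [repr_eq, repr_eq, h]

theorem fc_sub (f g : L2) (m p : ℤ) : fc (f - g : L2) m p = fc f m p - fc g m p := by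
  have h := congrArg (fun v => v ![m, p]) (map_sub mFourierBasis.repr f g)
  simp only [lp.coeFn_sub, Pi.sub_apply, repr_eq] at h
  exact h

theorem fc_add (f g : L2) (m p : ℤ) : fc (f + g : L2) m p = fc f m p + fc g m p := by
  have h := congrArg (fun v => v ![m, p]) (map_add mFourierBasis.repr f g)
  simp only [lp.coeFn_add, Pi.add_apply, repr_eq] at h
  exact h

/-- synthesis of functions from their Fourier coefficients -/
theorem synth (v : (Fin 2 → ℤ) → ℂ) (hv : Summable fun k => ‖v k‖ ^ 2) :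
    ∀ m p, fc ((∑' k : Fin 2 → ℤ, v k • mFourierLp 2 k : L2)) m p = v ![m, p] := by
  have hmem : Memℓp v 2 := by
    refine memℓp_gen ?_
    simpa using hv
  have h := mFourierBasis.hasSum_repr_symm (⟨v, hmem⟩ : lp (fun _ : Fin 2 → ℤ => ℂ) 2)
  have h2 : (∑' k : Fin 2 → ℤ, v k • mFourierLp 2 k : L2)
      = mFourierBasis.repr.symm (⟨v, hmem⟩ : lp (fun _ : Fin 2 → ℤ => ℂ) 2) := by
    rw [← h.tsum_eq]
    simp only [coe_mFourierBasis]
  intro m p
  rw [h2]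
  have h3 := repr_eq (mFourierBasis.repr.symm (⟨v, hmem⟩ : lp (fun _ : Fin 2 → ℤ => ℂ) 2)) ![m, p]
  rw [LinearIsometryEquiv.apply_symm_apply] at h3
  exact h3.symm

theorem summable_fc' (f : L2) : Summable fun k : Fin 2 → ℤ => ‖fc f (k 0) (k 1)‖ ^ 2 :=
  summable_mFourierCoeff (memL2 f)

theorem fc_heat {ν : ℝ} (hν : 0 ≤ ν) (f : L2) (m p : ℤ) :
    fc (heat ν f) m p = (Real.exp (-ν * eig ![m, p]) : ℂ) * fc f m p := by
  have h := synth (fun k => (Real.exp (-ν * eig k) : ℂ) * mFourierCoeff f k) (by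
    refine Summable.of_nonneg_of_le (fun k => by positivity) (fun k => ?_) (summable_fc' f)
    rw [norm_mul, mul_pow, mFourierCoeff_eq]
    have h1 : ‖(Real.exp (-ν * eig k) : ℂ)‖ ≤ 1 := by
      rw [Complex.norm_real, Real.norm_eq_abs, abs_of_pos (Real.exp_pos _)]
      rw [Real.exp_le_one_iff]
      have : 0 ≤ eig k := by unfold eig; positivity
      nlinarith
    have h2 : ‖(Real.exp (-ν * eig k) : ℂ)‖ ^ 2 ≤ 1 := pow_le_one₀ (norm_nonneg _) h1
    nlinarith [sq_nonneg ‖fc f (k 0) (k 1)‖]) m p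
  rw [mFourierCoeff_eq] at h
  exact h

theorem cs {ι : Type*} {a b : ι → ℝ} (ha : ∀ i, 0 ≤ a i) (hb : ∀ i, 0 ≤ b i)
    (hA : Summable fun i => a i ^ 2) (hB : Summable fun i => b i ^ 2) :
    (Summable fun i => a i * b i) ∧
      ∑' i, a i * b i ≤ Real.sqrt (∑' i, a i ^ 2) * Real.sqrt (∑' i, b i ^ 2) := by
  have h := Real.inner_le_Lp_mul_Lq_tsum_of_nonneg (p := 2) (q := 2)
    Real.HolderConjugate.two_two ha hb (by simpa using hA) (by simpa using hB)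
  simp only [Real.rpow_two] at h
  have hs := Real.summable_mul_of_Lp_Lq_of_nonneg (p := 2) (q := 2)
    Real.HolderConjugate.two_two ha hb (by simpa using hA) (by simpa using hB)
  rw [Real.sqrt_eq_rpow, Real.sqrt_eq_rpow]
  exact ⟨hs, h⟩

theorem weighted_cs (g u : L2) (w : ℤ × ℤ → ℕ) (hw : ∀ x, w x = 0 → fc u x.2 x.1 = 0)
    (hg : Summable fun x => (w x : ℝ) * ‖fc g x.2 x.1‖ ^ 2) :
    ‖inner ℂ g u‖ ≤ Real.sqrt (∑' x, (w x : ℝ) * ‖fc g x.2 x.1‖ ^ 2)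
      * Real.sqrt (∑' x, ‖fc u x.2 x.1‖ ^ 2 / (w x : ℝ)) := by
  have ea : ∀ x, (Real.sqrt (w x) * ‖fc g x.2 x.1‖) ^ 2 = (w x : ℝ) * ‖fc g x.2 x.1‖ ^ 2 := by
    intro x; rw [mul_pow, Real.sq_sqrt (by positivity)]
  have eb : ∀ x, (‖fc u x.2 x.1‖ / Real.sqrt (w x)) ^ 2 = ‖fc u x.2 x.1‖ ^ 2 / (w x : ℝ) := by
    intro x; rw [div_pow, Real.sq_sqrt (by positivity)]
  have h := cs (a := fun x : ℤ × ℤ => Real.sqrt (w x) * ‖fc g x.2 x.1‖)
    (b := fun x : ℤ × ℤ => ‖fc u x.2 x.1‖ / Real.sqrt (w x))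
    (fun x => by positivity) (fun x => by positivity)
    (hg.congr fun x => (ea x).symm)
    ((summable_div (summable_fc (memL2 u)) (fun x => by positivity) w).congr
      fun x => (eb x).symm)
  simp only [ea, eb] at h
  have e : ∀ x : ℤ × ℤ, Real.sqrt (w x) * ‖fc g x.2 x.1‖ * (‖fc u x.2 x.1‖ / Real.sqrt (w x))
      = ‖conj (fc g x.2 x.1) * fc u x.2 x.1‖ := by
    intro x
    rw [norm_mul, RCLike.norm_conj]
    rcases Nat.eq_zero_or_pos (w x) with h0 | h0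
    · rw [hw x h0]; simp
    · have : Real.sqrt (w x) ≠ 0 := (Real.sqrt_pos.2 (by exact_mod_cast h0)).ne'
      field_simp
  simp only [e] at h
  rw [← (hasSum_inner g u).tsum_eq]
  exact (norm_tsum_le_tsum_norm h.1).trans h.2

theorem meanZero_iff (f : L2) : MeanZero f ↔ fc f 0 0 = 0 := by
  unfold MeanZero fc; simp

/-- `|m| + |p| ≤ 2π|k|` -/
theorem wt_le_eig (x : ℤ × ℤ) : ((x.2.natAbs + x.1.natAbs : ℕ) : ℝ) ≤ eig (ek x) ^ (1/2 : ℝ) := by
  rw [← Real.sqrt_eq_rpow]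
  apply Real.le_sqrt_of_sq_le
  unfold eig
  rw [ek0, ek1]
  have hn : ∀ a : ℤ, ((a.natAbs : ℕ) : ℝ) = |(a : ℝ)| := by
    intro a; rw [Nat.cast_natAbs, Int.cast_abs]
  rw [Nat.cast_add, hn, hn]
  have h1 : (|(x.2 : ℝ)|) ^ 2 = (x.2 : ℝ) ^ 2 := sq_abs _
  have h2 : (|(x.1 : ℝ)|) ^ 2 = (x.1 : ℝ) ^ 2 := sq_abs _
  have hpi := Real.pi_gt_three
  have h3 : (2 : ℝ) ≤ 4 * Real.pi ^ 2 := by nlinarith
  have h4 : (|(x.2 : ℝ)| + |(x.1 : ℝ)|) ^ 2 ≤ 2 * ((x.2 : ℝ) ^ 2 + (x.1 : ℝ) ^ 2) := by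
    nlinarith [sq_nonneg (|(x.2 : ℝ)| - |(x.1 : ℝ)|)]
  calc _ ≤ 2 * ((x.2 : ℝ) ^ 2 + (x.1 : ℝ) ^ 2) := h4
    _ ≤ _ := by gcongr

theorem memH_summable {f : L2} (hf : MemH (1/2) f) :
    Summable fun x : ℤ × ℤ => eig (ek x) ^ (1/2 : ℝ) * ‖fc f x.2 x.1‖ ^ 2 := by
  have h := ek.summable_iff.2 hf.2
  refine h.congr fun x => ?_
  simp only [Function.comp]
  rw [mFourierCoeff_eq]; rfl

theorem sob_tsum (f : L2) : ∑' x : ℤ × ℤ, eig (ek x) ^ (1/2 : ℝ) * ‖fc f x.2 x.1‖ ^ 2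
    = ∑' k : Fin 2 → ℤ, eig k ^ (1/2 : ℝ) * ‖mFourierCoeff f k‖ ^ 2 := by
  rw [← ek.tsum_eq]
  refine tsum_congr fun x => ?_
  rw [mFourierCoeff_eq]; rfl

theorem sob_weight {f : L2} (hf : MemH (1/2) f) (w : ℤ × ℤ → ℕ)
    (hw : ∀ x, w x ≤ x.2.natAbs + x.1.natAbs) :
    (Summable fun x => (w x : ℝ) * ‖fc f x.2 x.1‖ ^ 2) ∧
      Real.sqrt (∑' x, (w x : ℝ) * ‖fc f x.2 x.1‖ ^ 2) ≤ sobNorm (1/2) f := by
  have hp : ∀ x : ℤ × ℤ, (w x : ℝ) * ‖fc f x.2 x.1‖ ^ 2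
      ≤ eig (ek x) ^ (1/2 : ℝ) * ‖fc f x.2 x.1‖ ^ 2 := by
    intro x
    have h1 : (w x : ℝ) ≤ ((x.2.natAbs + x.1.natAbs : ℕ) : ℝ) := by exact_mod_cast hw x
    have := h1.trans (wt_le_eig x)
    gcongr
  have hs : Summable fun x => (w x : ℝ) * ‖fc f x.2 x.1‖ ^ 2 :=
    Summable.of_nonneg_of_le (fun x => by positivity) hp (memH_summable hf)
  refine ⟨hs, ?_⟩
  unfold sobNorm
  apply Real.sqrt_le_sqrt
  rw [← sob_tsum]
  exact Summable.tsum_le_tsum hp hs (memH_summable hf)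

theorem norm_le_sob {f : L2} (hf : MemH (1/2) f) : ‖f‖ ≤ sobNorm (1/2) f := by
  have h0 : fc f 0 0 = 0 := (meanZero_iff f).1 hf.1
  obtain ⟨h1, h2⟩ := sob_weight hf (fun x => x.2.natAbs + x.1.natAbs) (fun x => le_rfl)
  refine le_trans ?_ h2
  apply Real.le_sqrt_of_sq_le
  rw [← (hasSum_norm f).tsum_eq]
  refine Summable.tsum_le_tsum (fun x => ?_) (hasSum_norm f).summable h1
  rcases Nat.eq_zero_or_pos (x.2.natAbs + x.1.natAbs) with h | h
  · have ha : x.2 = 0 := by omega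
    have hb : x.1 = 0 := by omega
    rw [ha, hb, h0]; simp
  · have : (1 : ℝ) ≤ ((x.2.natAbs + x.1.natAbs : ℕ) : ℝ) := by exact_mod_cast h
    nlinarith [sq_nonneg ‖fc f x.2 x.1‖]

theorem N1_le (f : L2) : N1 f ≤ ‖f‖ ^ 2 := by
  unfold N1
  rw [← (hasSum_norm f).tsum_eq]
  have hs := (hasSum_norm f).summable
  have hd := summable_div hs (fun x => by positivity) (fun x => x.2.natAbs + x.1.natAbs)
  simp only [Nat.cast_add] at hd
  refine Summable.tsum_le_tsum (fun x => ?_) hd hs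
  have := div_nat_le (‖fc f x.2 x.1‖ ^ 2) (by positivity) (x.2.natAbs + x.1.natAbs)
  simpa using this

theorem N0_le (f : L2) : N0 f ≤ ‖f‖ ^ 2 := by
  unfold N0
  rw [← (hasSum_norm f).tsum_eq]
  have hs := (hasSum_norm f).summable
  exact Summable.tsum_le_tsum (fun x => div_nat_le _ (by positivity) _)
    (summable_div hs (fun x => by positivity) (fun x => x.1.natAbs)) hs

theorem sqrt_aux (n : ℕ) (a b : ℝ) (hb : 0 ≤ b) (h : a ≤ (81/100) ^ n * b ^ 2) :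
    Real.sqrt a ≤ (9/10) ^ n * b := by
  apply Real.sqrt_le_iff.2
  refine ⟨by positivity, h.trans (le_of_eq ?_)⟩
  rw [mul_pow, ← pow_mul, mul_comm n 2, pow_mul]; norm_num

theorem E1 {h g : L2} (hh : D1 h) (hg : MemH (1/2) g) (j : ℕ) :
    ‖inner ℂ g (phi.U^[j] h)‖ ≤ (9/10) ^ j * ‖h‖ * sobNorm (1/2) g := by
  obtain ⟨h1, h2⟩ := sob_weight hg (fun x => x.2.natAbs + x.1.natAbs) (fun x => le_rfl)
  have h3 := weighted_cs g (phi.U^[j] h) (fun x => x.2.natAbs + x.1.natAbs) (fun x hx => by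
    have ha : x.2 = 0 := by omega
    have hb : x.1 = 0 := by omega
    exact D1_iter hh j _ _ (Or.inr ⟨ha, hb⟩)) h1
  have h4 : Real.sqrt (∑' x : ℤ × ℤ, ‖fc (phi.U^[j] h) x.2 x.1‖ ^ 2
      / ((x.2.natAbs + x.1.natAbs : ℕ) : ℝ)) ≤ (9/10) ^ j * ‖h‖ := by
    apply sqrt_aux _ _ _ (norm_nonneg _)
    have h5 := N1_iter hh j
    have h6 : N1 (phi.U^[j] h) = ∑' x : ℤ × ℤ, ‖fc (phi.U^[j] h) x.2 x.1‖ ^ 2
      / ((x.2.natAbs + x.1.natAbs : ℕ) : ℝ) := by
      unfold N1; push_cast; rfl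
    rw [← h6]
    exact h5.trans (by gcongr; exact N1_le h)
  calc _ ≤ _ := h3
    _ ≤ sobNorm (1/2) g * ((9/10) ^ j * ‖h‖) := by gcongr; exact Real.sqrt_nonneg _
    _ = _ := by ring

theorem UV (f : L2) : phi.U (V f) = f := by
  apply Lp.ext
  have h1 := U_ae (V f)
  have h2 : (fun x => (V f : T2 → ℂ) (shA (sig x))) =ᵐ[volume]
      fun x => f (sig.symm (shA.symm (shA (sig x)))) := by
    have hq := phi.mp.quasiMeasurePreserving.ae_eq_comp (V_ae f)
    exact hq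
  filter_upwards [h1, h2] with x a b
  rw [a, b]; simp

theorem inner_U (g f : L2) : inner ℂ g (phi.U f) = inner ℂ (V g) f := by
  have h : inner ℂ (phi.U (V g)) (phi.U f) = inner ℂ (V g) f :=
    (Lp.compMeasurePreservingₗᵢ ℂ phi.toHomeo phi.mp).inner_map_map (V g) f
  rwa [UV] at h

theorem inner_U_iter (g f : L2) (n : ℕ) : inner ℂ g (phi.U^[n] f) = inner ℂ (V^[n] g) f := by
  induction n generalizing g with
  | zero => rfl
  | succ n ih =>
    rw [Function.iterate_succ_apply', inner_U, ih, ← Function.iterate_succ_apply]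

theorem norm_U (f : L2) : ‖phi.U f‖ = ‖f‖ := Lp.norm_compMeasurePreserving f phi.mp

theorem norm_U_iter (f : L2) (n : ℕ) : ‖phi.U^[n] f‖ = ‖f‖ := by
  induction n with
  | zero => rfl
  | succ n ih => rw [Function.iterate_succ_apply', norm_U, ih]

theorem E2 {g f : L2} (hg : D0 g) (hf : MemH (1/2) f) (i : ℕ) :
    ‖inner ℂ g (phi.U^[i] f)‖ ≤ (9/10) ^ i * ‖g‖ * sobNorm (1/2) f := by
  obtain ⟨h1, h2⟩ := sob_weight hf (fun x => x.1.natAbs) (fun x => by omega)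
  rw [inner_U_iter, norm_inner_symm]
  have h3 := weighted_cs f (V^[i] g) (fun x => x.1.natAbs) (fun x hx => by
    have ha : x.1 = 0 := by omega
    apply D0_iter hg i; rw [ha]; simp) h1
  have h4 : Real.sqrt (∑' x : ℤ × ℤ, ‖fc (V^[i] g) x.2 x.1‖ ^ 2
      / (x.1.natAbs : ℝ)) ≤ (9/10) ^ i * ‖g‖ := by
    apply sqrt_aux _ _ _ (norm_nonneg _)
    exact (N0_iter hg i).trans (by gcongr; exact N0_le g)
  calc _ ≤ _ := h3
    _ ≤ sobNorm (1/2) f * ((9/10) ^ i * ‖g‖) := by gcongr; exact Real.sqrt_nonneg _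
    _ = _ := by ring

theorem fc_U_zero (f : L2) : fc (phi.U f) 0 0 = fc f 0 0 := by
  rw [fc_U]
  simp only [zpow_zero, one_mul]
  rw [fc_shA]; simp

theorem fc_U_iter_zero (f : L2) (n : ℕ) : fc (phi.U^[n] f) 0 0 = fc f 0 0 := by
  induction n with
  | zero => rfl
  | succ n ih => rw [Function.iterate_succ_apply', fc_U_zero, ih]

theorem exists_split (u : L2) (hu : fc u 0 0 = 0) : ∃ u0 u1 : L2, u = u0 + u1 ∧ D0 u0 ∧ D1 u1 ∧
    ‖u1‖ ≤ ‖u‖ ∧ (inner ℂ u0 u : ℂ) = (‖u0‖ ^ 2 : ℝ) := by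
  classical
  let v : (Fin 2 → ℤ) → ℂ := fun k => if k 0 * k 1 < 0 then fc u (k 0) (k 1) else 0
  have hv : Summable fun k => ‖v k‖ ^ 2 := by
    refine Summable.of_nonneg_of_le (fun k => by positivity) (fun k => ?_) (summable_fc' u)
    simp only [v]; split_ifs
    · exact le_rfl
    · simp
  let u0 : L2 := ∑' k : Fin 2 → ℤ, v k • mFourierLp 2 k
  have h0 : ∀ m p, fc u0 m p = if m * p < 0 then fc u m p else 0 := fun m p => synth v hv m p
  have h1 : ∀ m p, fc (u - u0 : L2) m p = if m * p < 0 then 0 else fc u m p := by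
    intro m p
    rw [fc_sub, h0]
    split_ifs <;> simp
  refine ⟨u0, u - u0, by abel, ?_, ?_, ?_, ?_⟩
  · intro m p h
    rw [h0, if_neg h]
  · intro m p h
    rw [h1]
    rcases h with h | ⟨h, h'⟩
    · rw [if_pos h]
    · subst h; subst h'; simp [hu]
  · have := hasSum_norm (u - u0)
    have h2 := hasSum_norm u
    have h3 : ‖u - u0‖ ^ 2 ≤ ‖u‖ ^ 2 := by
      refine hasSum_le (fun x => ?_) this h2
      rw [h1]
      split_ifs
      · simp
      · exact le_rfl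
    exact (sq_le_sq₀ (norm_nonneg _) (norm_nonneg _)).1 h3
  · have h2 := hasSum_inner u0 u
    have h3 := hasSum_norm u0
    have h4 : HasSum (fun x : ℤ × ℤ => ((‖fc u0 x.2 x.1‖ ^ 2 : ℝ) : ℂ)) ((‖u0‖ ^ 2 : ℝ) : ℂ) :=
      Complex.hasSum_ofReal.2 h3
    refine h2.unique (h4.congr_fun fun x => ?_)
    rw [h0]
    split_ifs
    · rw [RCLike.conj_mul]; norm_cast
    · simp

theorem mixing_bound {f g : L2} (hf : MemH (1/2) f) (hg : MemH (1/2) g) (i j : ℕ) :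
    ‖inner ℂ g (phi.U^[i + j] f)‖ ≤ ((9/10) ^ i + (9/10) ^ j) * sobNorm (1/2) f * sobNorm (1/2) g := by
  have hf0 : fc (phi.U^[i] f) 0 0 = 0 := by
    rw [fc_U_iter_zero]; exact (meanZero_iff f).1 hf.1
  obtain ⟨u0, u1, hu, h0, h1, h2, h3⟩ := exists_split _ hf0
  have hlin : ∀ n : ℕ, ∀ a b : L2, phi.U^[n] (a + b) = phi.U^[n] a + phi.U^[n] b := by
    intro n
    induction n with
    | zero => intro a b; rfl
    | succ n ih =>
      intro a b
      rw [Function.iterate_succ_apply, Function.iterate_succ_apply, Function.iterate_succ_apply,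
        ← ih]
      congr 1
      exact map_add (Lp.compMeasurePreservingₗᵢ ℂ phi.toHomeo phi.mp) a b
  rw [add_comm i j, Function.iterate_add_apply, hu, hlin, inner_add_right]
  have hsf : 0 ≤ sobNorm (1/2) f := Real.sqrt_nonneg _
  have hsg : 0 ≤ sobNorm (1/2) g := Real.sqrt_nonneg _
  have hu0 : ‖u0‖ ≤ (9/10) ^ i * sobNorm (1/2) f := by
    have h4 := E2 h0 hf i
    rw [h3, Complex.norm_real, Real.norm_eq_abs, abs_of_nonneg (by positivity)] at h4
    rcases (norm_nonneg u0).eq_or_lt with h | h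
    · rw [← h]; positivity
    · have : ‖u0‖ * ‖u0‖ ≤ ((9/10) ^ i * sobNorm (1/2) f) * ‖u0‖ := by nlinarith
      exact le_of_mul_le_mul_right this h
  have a1 : ‖inner ℂ g (phi.U^[j] u0)‖ ≤ (9/10) ^ i * sobNorm (1/2) f * sobNorm (1/2) g := by
    calc _ ≤ ‖g‖ * ‖phi.U^[j] u0‖ := norm_inner_le_norm _ _
      _ = ‖g‖ * ‖u0‖ := by rw [norm_U_iter]
      _ ≤ sobNorm (1/2) g * ((9/10) ^ i * sobNorm (1/2) f) := by
          gcongr; exact norm_le_sob hg
      _ = _ := by ring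
  have a2 : ‖inner ℂ g (phi.U^[j] u1)‖ ≤ (9/10) ^ j * sobNorm (1/2) f * sobNorm (1/2) g := by
    calc _ ≤ (9/10) ^ j * ‖u1‖ * sobNorm (1/2) g := E1 h1 hg j
      _ ≤ (9/10) ^ j * sobNorm (1/2) f * sobNorm (1/2) g := by
          gcongr
          calc ‖u1‖ ≤ _ := h2
            _ = ‖f‖ := norm_U_iter f i
            _ ≤ _ := norm_le_sob hf
  calc _ ≤ _ := norm_add_le _ _
    _ ≤ _ := add_le_add a1 a2
    _ = _ := by ring

theorem expMixing_phi : ExpMixing phi := by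
  refine ⟨1/2, by norm_num, 1/2, by norm_num, 20/9, by norm_num, Real.log (10/9) / 2,
    by have := Real.log_pos (show (1:ℝ) < 10/9 by norm_num); linarith, ?_⟩
  intro n f g hf hg
  have h := mixing_bound hf hg (n / 2) (n - n / 2)
  rw [show n / 2 + (n - n / 2) = n by omega] at h
  refine h.trans ?_
  have hsf : 0 ≤ sobNorm (1/2) f := Real.sqrt_nonneg _
  have hsg : 0 ≤ sobNorm (1/2) g := Real.sqrt_nonneg _
  have key : ∀ k : ℕ, n ≤ 2 * k + 2 → (9/10 : ℝ) ^ k ≤ (10/9) * Real.exp (-(Real.log (10/9) / 2) * n) := by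
    intro k hk
    have e1 : (9/10 : ℝ) ^ k = Real.exp (-(Real.log (10/9)) * k) := by
      rw [mul_comm, Real.exp_nat_mul, Real.exp_neg, Real.exp_log (by norm_num)]; norm_num
    have e2 : (10/9 : ℝ) = Real.exp (Real.log (10/9)) := (Real.exp_log (by norm_num)).symm
    rw [e1]
    conv_rhs => rw [e2]
    rw [← Real.exp_add, Real.exp_le_exp]
    have hk' : (n : ℝ) ≤ 2 * k + 2 := by exact_mod_cast hk
    have hl : 0 < Real.log (10/9) := Real.log_pos (by norm_num)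
    rw [Real.exp_log (by norm_num)]
    nlinarith
  have k1 := key (n / 2) (by omega)
  have k2 := key (n - n / 2) (by omega)
  gcongr
  linarith

end Pool.Agent.R301.PD
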